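import Pool.Agent.W477.ER.Stm

/-!
# The two step projection lemma
-/

set_option autoImplicit false

namespace Pool.Agent.W477.ER

open Finset
open scoped LinearAlgebra.Projectivization

section

variable {K : Type} [Field K] {V : Type} [AddCommGroup V] [Module K V]

theorem over_unique {P x : ℙ K V} {y y' : ℙ K (V ⧸ P.submodule)} (h : Over P x y)
    (h' : Over P x y') : y = y' := by
  obtain ⟨a, ha⟩ := h
  obtain ⟨b, hb⟩ := h'
  exact ha.symm.trans hb

open Classical in
theorem mem_lay_zero {P : ℙ K V} {X : Finset (ℙ K V)} {y : ℙ K (V ⧸ P.submodule)} :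
    y ∈ lay P X 0 ↔ ∃ x ∈ X, Over P x y := by
  rw [mem_lay, Finset.card_pos]
  constructor
  · rintro ⟨x, hx⟩
    rw [Finset.mem_filter] at hx
    exact ⟨x, hx.1, hx.2⟩
  · rintro ⟨x, hx, hxy⟩
    exact ⟨x, Finset.mem_filter.mpr ⟨hx, hxy⟩⟩

theorem over_ne {P x : ℙ K V} {y : ℙ K (V ⧸ P.submodule)} (h : Over P x y) : x ≠ P := by
  rintro rfl
  obtain ⟨a, _⟩ := h
  apply a
  rw [Submodule.mkQ_apply, Submodule.Quotient.mk_eq_zero, Projectivization.submodule_eq]
  exact Submodule.mem_span_singleton_self _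

theorem mkQ_zero_iff (P : ℙ K V) (v : V) :
    P.submodule.mkQ v = 0 ↔ ∃ t : K, t • P.rep = v := by
  rw [Submodule.mkQ_apply, Submodule.Quotient.mk_eq_zero, Projectivization.submodule_eq,
    Submodule.mem_span_singleton]

/-- vector version of Over: if v represents x then mkQ v represents y -/
theorem over_mk {P x : ℙ K V} {y : ℙ K (V ⧸ P.submodule)} (h : Over P x y) :
    ∃ c : K, c ≠ 0 ∧ P.submodule.mkQ x.rep = c • y.rep := by
  obtain ⟨a, ha⟩ := h
  have h1 : Projectivization.mk K (P.submodule.mkQ x.rep) a =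
      Projectivization.mk K y.rep y.rep_nonzero := by
    rw [ha, Projectivization.mk_rep]
  rw [Projectivization.mk_eq_mk_iff'] at h1
  obtain ⟨c, hc⟩ := h1
  refine ⟨c, ?_, hc.symm⟩
  rintro rfl
  rw [zero_smul] at hc
  exact a hc.symm

theorem over_of {P x : ℙ K V} {y : ℙ K (V ⧸ P.submodule)} (c : K) (hc : c ≠ 0)
    (h : P.submodule.mkQ x.rep = c • y.rep) : Over P x y := by
  have hne : P.submodule.mkQ x.rep ≠ 0 := by
    rw [h]
    exact smul_ne_zero hc y.rep_nonzero
  refine ⟨hne, ?_⟩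
  have h1 : Projectivization.mk K (P.submodule.mkQ x.rep) hne =
      Projectivization.mk K y.rep y.rep_nonzero := by
    rw [Projectivization.mk_eq_mk_iff']
    exact ⟨c, h.symm⟩
  rw [h1, Projectivization.mk_rep]

/-- the collinearity step -/
theorem coll {P0 : ℙ K V} {Q : ℙ K (V ⧸ P0.submodule)}
    {a : ℙ K ((V ⧸ P0.submodule) ⧸ Q.submodule)} {z z' : ℙ K (V ⧸ P0.submodule)}
    {x x' : ℙ K V} (hz : Over Q z a) (hz' : Over Q z' a) (hne : z ≠ z')
    (hx : Over P0 x z) (hx' : Over P0 x' z') :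
    ∃ P1 : ℙ K V, Over P0 P1 Q ∧ ∃ w, Over P1 x w ∧ Over P1 x' w := by
  obtain ⟨c1, hc1, e1⟩ := over_mk hz
  obtain ⟨c2, hc2, e2⟩ := over_mk hz'
  obtain ⟨b1, hb1, f1⟩ := over_mk hx
  obtain ⟨b2, hb2, f2⟩ := over_mk hx'
  -- mkQ_Q (mkQ x) = b1 c1 a, mkQ_Q (mkQ x') = b2 c2 a
  set c : K := (b1 * c1) / (b2 * c2) with hc
  have hc0 : c ≠ 0 := div_ne_zero (mul_ne_zero hb1 hc1) (mul_ne_zero hb2 hc2)
  set v : V := x.rep - c • x'.rep with hv
  have hq : Q.submodule.mkQ (P0.submodule.mkQ v) = 0 := by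
    rw [hv, map_sub, map_sub, map_smul, map_smul, f1, f2, map_smul, map_smul, e1, e2, smul_smul,
      smul_smul, smul_smul, hc, ← sub_smul]
    have : b1 * c1 - b1 * c1 / (b2 * c2) * (b2 * c2) = 0 := by
      rw [div_mul_cancel₀ _ (mul_ne_zero hb2 hc2), sub_self]
    rw [mul_assoc _ b2 c2, this, zero_smul]
  obtain ⟨t, ht⟩ := (mkQ_zero_iff Q _).mp hq
  have ht0 : t ≠ 0 := by
    rintro rfl
    rw [zero_smul] at ht
    apply hne
    have h3 : P0.submodule.mkQ x.rep = c • P0.submodule.mkQ x'.rep := by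
      have := ht.symm
      rw [hv, map_sub, map_smul, sub_eq_zero] at this
      exact this
    have h4 : Over P0 x z' := by
      apply over_of (c * b2) (mul_ne_zero hc0 hb2)
      rw [h3, f2, smul_smul]
    exact over_unique hx h4
  have hv0 : v ≠ 0 := by
    intro h
    rw [h, map_zero] at ht
    exact smul_ne_zero ht0 Q.rep_nonzero ht
  set P1 : ℙ K V := Projectivization.mk K v hv0 with hP1
  obtain ⟨s, hs⟩ := Projectivization.exists_smul_eq_mk_rep K v hv0
  have hs' : P1.rep = (s : K) • v := by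
    rw [hP1, ← hs]; rfl
  have hsub : P1.submodule = Submodule.span K {v} := by
    rw [hP1, Projectivization.submodule_mk]
  refine ⟨P1, ?_, ?_⟩
  · apply over_of ((s : K) * t) (mul_ne_zero s.ne_zero ht0)
    rw [hs', map_smul, ← ht, smul_smul]
  · -- x is not on P1
    have hxn : P1.submodule.mkQ x.rep ≠ 0 := by
      intro h
      rw [Submodule.mkQ_apply, Submodule.Quotient.mk_eq_zero, hsub,
        Submodule.mem_span_singleton] at h
      obtain ⟨k, hk⟩ := h
      have h5 : P0.submodule.mkQ x.rep = (k * t) • Q.rep := by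
        rw [← hk, map_smul, ← ht, smul_smul]
      have h6 : Q.submodule.mkQ (P0.submodule.mkQ x.rep) = 0 :=
        (mkQ_zero_iff Q _).mpr ⟨k * t, h5.symm⟩
      rw [f1, map_smul, e1, smul_smul] at h6
      exact smul_ne_zero (mul_ne_zero hb1 hc1) a.rep_nonzero h6
    have hxx : P1.submodule.mkQ x.rep = c • P1.submodule.mkQ x'.rep := by
      rw [← map_smul, ← sub_eq_zero, ← map_sub, Submodule.mkQ_apply,
        Submodule.Quotient.mk_eq_zero, hsub]
      exact Submodule.mem_span_singleton_self _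
    refine ⟨Projectivization.mk K _ hxn, ⟨hxn, rfl⟩, ?_⟩
    have hx'n : P1.submodule.mkQ x'.rep ≠ 0 := by
      intro h
      rw [h, smul_zero] at hxx
      exact hxn hxx
    refine ⟨hx'n, ?_⟩
    rw [Projectivization.mk_eq_mk_iff']
    refine ⟨c⁻¹, ?_⟩
    rw [hxx, smul_smul, inv_mul_cancel₀ hc0, one_smul]

end

open Classical in
theorem cone_of (hDC : DC) (hGL : GeoLin) (hC : CardP) : Cone := by
  intro K _ _ V _ _ _ X P0 Q
  haveI : Fintype (ℙ K V) := Fintype.ofFinite _
  have hq2 : 2 ≤ Nat.card K := Finite.one_lt_card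
  set q := Nat.card K with hq
  obtain ⟨S, hS⟩ := hGL K V
  have hcardV : Fintype.card (ℙ K V) = pp q (Module.finrank K V) := by
    rw [← Nat.card_eq_fintype_card]; exact (hC K V).1
  -- at most q points over a point
  have hfib : ((Finset.univ : Finset (ℙ K V)).filter (fun x => Over P0 x Q)).card ≤ q := by
    have h1 := (hDC q _ (ℙ K V) S Finset.univ hq2 hcardV).2.2.1 P0 q le_rfl
    rw [hS, Finset.card_eq_zero] at h1
    by_contra h
    rw [not_le] at h
    have h2 : Q ∈ lay P0 (Finset.univ : Finset (ℙ K V)) q := mem_lay.mpr h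
    rw [h1] at h2
    exact absurd h2 (Finset.notMem_empty _)
  set X' := lay P0 X 0 with hX'
  set A := lay Q X' (q - 1) with hA
  -- the fibres
  have hF : ∀ a ∈ A, q ≤ (X'.filter (fun z => Over Q z a)).card := by
    intro a ha
    have := mem_lay.mp ha
    omega
  have hbase : ∀ a : ℙ K ((V ⧸ P0.submodule) ⧸ Q.submodule), ∃ z : ℙ K (V ⧸ P0.submodule),
      a ∈ A → z ∈ X'.filter (fun z => Over Q z a) := by
    intro a
    by_cases ha : a ∈ A
    · have h1 := hF a ha
      have h2 : 0 < (X'.filter (fun z => Over Q z a)).card := by omega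
      obtain ⟨z, hz⟩ := Finset.card_pos.mp h2
      exact ⟨z, fun _ => hz⟩
    · exact ⟨Q, fun h => absurd h ha⟩
  choose base hbase using hbase
  set T : Finset (ℙ K (V ⧸ P0.submodule)) :=
    A.biUnion (fun a => (X'.filter (fun z => Over Q z a)).erase (base a)) with hT
  have hTcard : (q - 1) * A.card ≤ T.card := by
    rw [hT, Finset.card_biUnion]
    · rw [mul_comm, ← smul_eq_mul, ← Finset.sum_const]
      apply Finset.sum_le_sum
      intro a ha
      rw [Finset.card_erase_of_mem (hbase a ha)]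
      have := hF a ha
      omega
    · intro a ha b hb hab
      rw [Function.onFun, Finset.disjoint_left]
      intro z hz1 hz2
      rw [Finset.mem_erase, Finset.mem_filter] at hz1 hz2
      exact hab (over_unique hz1.2.2 hz2.2.2)
  by_cases hT0 : T.Nonempty
  swap
  · rw [Finset.not_nonempty_iff_eq_empty] at hT0
    rw [hT0, Finset.card_empty] at hTcard
    exact ⟨P0, le_trans hTcard (Nat.zero_le _)⟩
  -- choose points over z
  have hpt : ∀ z : ℙ K (V ⧸ P0.submodule), ∃ x : ℙ K V, z ∈ X' → x ∈ X ∧ Over P0 x z := by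
    intro z
    by_cases hz : z ∈ X'
    · obtain ⟨x, hx, hxz⟩ := mem_lay_zero.mp hz
      exact ⟨x, fun _ => ⟨hx, hxz⟩⟩
    · exact ⟨P0, fun h => absurd h hz⟩
  choose pt hpt using hpt
  have hTX' : ∀ z ∈ T, z ∈ X' := by
    intro z hz
    rw [hT, Finset.mem_biUnion] at hz
    obtain ⟨a, _, hz⟩ := hz
    rw [Finset.mem_erase, Finset.mem_filter] at hz
    exact hz.2.1
  -- choose P1
  have hP1 : ∀ z : ℙ K (V ⧸ P0.submodule), ∃ P1 : ℙ K V, z ∈ T → (Over P0 P1 Q ∧
      ∃ z', z' ∈ X' ∧ z' ∉ T ∧ z' ≠ Q ∧ z ≠ Q ∧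
        ∃ w, Over P1 (pt z) w ∧ Over P1 (pt z') w) := by
    intro z
    by_cases hz : z ∈ T
    · have hz0 := hz
      rw [hT, Finset.mem_biUnion] at hz
      obtain ⟨a, ha, hz⟩ := hz
      rw [Finset.mem_erase, Finset.mem_filter] at hz
      have hb := hbase a ha
      rw [Finset.mem_filter] at hb
      have hx := (hpt z hz.2.1).2
      have hx' := (hpt (base a) hb.1).2
      obtain ⟨P1, h1, h2⟩ := coll hz.2.2 hb.2 hz.1 hx hx'
      refine ⟨P1, fun _ => ⟨h1, base a, hb.1, ?_, over_ne hb.2, over_ne hz.2.2, h2⟩⟩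
      intro hbT
      rw [hT, Finset.mem_biUnion] at hbT
      obtain ⟨a', ha', hb'⟩ := hbT
      rw [Finset.mem_erase, Finset.mem_filter] at hb'
      have : a = a' := over_unique hb.2 hb'.2.2
      subst this
      exact hb'.1 rfl
    · exact ⟨P0, fun h => absurd h hz⟩
  choose φ hφ using hP1
  -- pigeonhole
  obtain ⟨P1, hP1a, hP1b⟩ : ∃ P1 ∈ (Finset.univ : Finset (ℙ K V)).filter (fun x => Over P0 x Q),
      T.card ≤ q * (T.filter (fun z => φ z = P1)).card := by
    by_contra hcon
    push Not at hcon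
    have h1 : T.card = ∑ P1 ∈ (Finset.univ : Finset (ℙ K V)).filter (fun x => Over P0 x Q),
        (T.filter (fun z => φ z = P1)).card := by
      apply Finset.card_eq_sum_card_fiberwise
      intro z hz
      rw [Finset.mem_coe, Finset.mem_filter]
      exact ⟨Finset.mem_univ _, (hφ z hz).1⟩
    have hne : ((Finset.univ : Finset (ℙ K V)).filter (fun x => Over P0 x Q)).Nonempty := by
      obtain ⟨z, hz⟩ := hT0
      exact ⟨φ z, Finset.mem_filter.mpr ⟨Finset.mem_univ _, (hφ z hz).1⟩⟩
    have h2 : q * T.card < ((Finset.univ : Finset (ℙ K V)).filter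
        (fun x => Over P0 x Q)).card * T.card := by
      conv_lhs => rw [h1]
      rw [Finset.mul_sum, ← smul_eq_mul, ← Finset.sum_const]
      exact Finset.sum_lt_sum_of_nonempty hne hcon
    have h3 : ((Finset.univ : Finset (ℙ K V)).filter (fun x => Over P0 x Q)).card * T.card ≤
        q * T.card := Nat.mul_le_mul_right _ hfib
    omega
  rw [Finset.mem_filter] at hP1a
  refine ⟨P1, ?_⟩
  -- the set Y
  set T1 := T.filter (fun z => φ z = P1) with hT1
  set Y := T1.image pt with hY
  have hptinj : ∀ z ∈ X', ∀ z' ∈ X', pt z = pt z' → z = z' := by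
    intro z hz z' hz' h
    have h1 := (hpt z hz).2
    have h2 := (hpt z' hz').2
    rw [h] at h1
    exact over_unique h1 h2
  have hYcard : Y.card = T1.card := by
    rw [hY]
    apply Finset.card_image_of_injOn
    intro z hz z' hz' h
    rw [Finset.mem_coe, hT1, Finset.mem_filter] at hz hz'
    exact hptinj z (hTX' z hz.1) z' (hTX' z' hz'.1) h
  -- rows at P1
  have hrow := (hDC q _ (ℙ K V) S X hq2 hcardV).1 P1
  have hfun : S.nn X P1 = fun i => (lay P1 X i).card := funext (hS X P1)
  rw [hfun] at hrow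
  have hsum : ∑ i ∈ range q, (lay P1 X i).card + ind X P1 = X.card := hrow.2.2
  have hsum2 : ∑ i ∈ range q, (lay P1 X i).card = (lay P1 X 0).card +
      cc q (fun i => (lay P1 X i).card) := by
    unfold cc
    rw [Finset.range_eq_Ico, Finset.sum_eq_sum_Ico_succ_bot (by omega)]
  have hlay : (lay P1 X 0).card + Y.card + ind X P1 ≤ X.card := by
    -- lay P1 X 0 is covered by the points of X outside Y and P1
    have hcov : ∀ w ∈ lay P1 X 0, ∃ x, x ∈ (X \ Y).erase P1 ∧ Over P1 x w := by
      intro w hw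
      obtain ⟨x, hx, hxw⟩ := mem_lay_zero.mp hw
      by_cases hxY : x ∈ Y
      · rw [hY, Finset.mem_image] at hxY
        obtain ⟨z, hz, rfl⟩ := hxY
        rw [hT1, Finset.mem_filter] at hz
        have hφz := hφ z hz.1
        rw [hz.2] at hφz
        obtain ⟨h1, z', hz'1, hz'2, hz'3, hz'4, w', hw1, hw2⟩ := hφz
        have hww : w = w' := over_unique hxw hw1
        subst hww
        refine ⟨pt z', ?_, hw2⟩
        rw [Finset.mem_erase, Finset.mem_sdiff]
        refine ⟨over_ne hw2, (hpt z' hz'1).1, ?_⟩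
        intro hmem
        rw [hY, Finset.mem_image] at hmem
        obtain ⟨z'', hz''1, hz''2⟩ := hmem
        rw [hT1, Finset.mem_filter] at hz''1
        have : z'' = z' := hptinj z'' (hTX' z'' hz''1.1) z' hz'1 hz''2
        rw [this] at hz''1
        exact hz'2 hz''1.1
      · exact ⟨x, Finset.mem_erase.mpr ⟨over_ne hxw, Finset.mem_sdiff.mpr ⟨hx, hxY⟩⟩, hxw⟩
    haveI : Nonempty (ℙ K V) := ⟨P0⟩
    choose! f hf using hcov
    have h1 : (lay P1 X 0).card ≤ ((X \ Y).erase P1).card := by
      apply Finset.card_le_card_of_injOn f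
      · intro w hw
        exact (hf w hw).1
      · intro w hw w' hw' h
        have h1 := (hf w hw).2
        have h2 := (hf w' hw').2
        rw [h] at h1
        exact over_unique h1 h2
    have hYX : Y ⊆ X := by
      intro x hx
      rw [hY, Finset.mem_image] at hx
      obtain ⟨z, hz, rfl⟩ := hx
      rw [hT1, Finset.mem_filter] at hz
      exact (hpt z (hTX' z hz.1)).1
    have h2 : (X \ Y).card = X.card - Y.card := Finset.card_sdiff_of_subset hYX
    have h3 : Y.card ≤ X.card := Finset.card_le_card hYX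
    by_cases hPX : P1 ∈ X
    · have hPY : P1 ∉ Y := by
        intro hmem
        rw [hY, Finset.mem_image] at hmem
        obtain ⟨z, hz, hzP⟩ := hmem
        rw [hT1, Finset.mem_filter] at hz
        obtain ⟨_, _, _, _, _, hzQ, _⟩ := hφ z hz.1
        have h4 := (hpt z (hTX' z hz.1)).2
        rw [hzP] at h4
        exact hzQ (over_unique h4 hP1a.2)
      rw [Finset.card_erase_of_mem (Finset.mem_sdiff.mpr ⟨hPX, hPY⟩)] at h1
      have h5 : 0 < (X \ Y).card := Finset.card_pos.mpr ⟨P1, Finset.mem_sdiff.mpr ⟨hPX, hPY⟩⟩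
      unfold ind
      rw [if_pos hPX]
      omega
    · have h6 := Finset.card_erase_le (s := X \ Y) (a := P1)
      unfold ind
      rw [if_neg hPX]
      omega
  have hccY : Y.card ≤ cc q (fun i => (lay P1 X i).card) := by omega
  calc (q - 1) * A.card ≤ T.card := hTcard
    _ ≤ q * T1.card := hP1b
    _ = q * Y.card := by rw [hYcard]
    _ ≤ q * cc q (fun i => (lay P1 X i).card) := Nat.mul_le_mul_left _ hccY

end Pool.Agent.W477.ER
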