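import Pool.Agent.W477.ER.Stm

/-!
# From the main theorem to e_r = L_r and to the frozen statement
-/

set_option autoImplicit false

namespace Pool.Agent.W477.ER

open Finset
open scoped LinearAlgebra.Projectivization

/-- the set of rational zeros of a family of polynomials -/
abbrev zer {K : Type} [Field K] {m r : ℕ} (F : Fin r → MvPolynomial (Fin (m + 1)) K) :
    Set (ℙ K (Fin (m + 1) → K)) := {x | ∀ i, MvPolynomial.eval x.rep (F i) = 0}

theorem be_zer (hTh : Th) (hLink : LinkMv) (K : Type) [Field K] [Finite K] (m d r : ℕ)
    (hd : d < Nat.card K) (F : Fin r → MvPolynomial (Fin (m + 1)) K)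
    (hF : ∀ i, (F i).IsHomogeneous d) (hLI : LinearIndependent K F) :
    r + be (Nat.card K) 0 d (zer F).ncard ≤ (m + d).choose d := by
  classical
  haveI : Finite (ℙ K (Fin (m + 1) → K)) := by
    unfold Projectivization
    exact Quotient.finite _
  have hfin : (zer F).Finite := Set.toFinite _
  have h1 := hLink K m d r F hfin.toFinset hF hLI (by
    intro x hx i
    rw [Set.Finite.mem_toFinset] at hx
    exact hx i)
  have h2 := hTh K (Fin (m + 1) → K) d hfin.toFinset hd
  rw [← Set.ncard_eq_toFinset_card _ hfin] at h2
  omega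

theorem maxi (hBe : BeBasic) (hTh : Th) (hLink : LinkMv) (K : Type) [Field K] [Finite K]
    (m d r N : ℕ) (hd : d < Nat.card K)
    (hN : (m + d).choose d < be (Nat.card K) 0 d (N + 1) + r)
    (G : Fin r → MvPolynomial (Fin (m + 1)) K)
    (hG : ∀ i, (G i).IsHomogeneous d) (hLI : LinearIndependent K G) :
    (zer G).ncard ≤ N := by
  by_contra h
  have h1 := be_zer hTh hLink K m d r hd G hG hLI
  have h2 := hBe.1 (Nat.card K) 0 d (N + 1) (zer G).ncard (by omega)
  omega

/-- the frozen statement S00011 -/
theorem s00011_of (hBe : BeBasic) (hTh : Th) (hLink : LinkMv) (hLow : LowB) :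
    ∀ (p : ℕ) [Fact (Nat.Prime p)] (n : ℕ), 0 < n →
    ∀ (m d r : ℕ), 1 ≤ m → 1 ≤ d → d < p ^ n → 1 ≤ r → r ≤ (m + d).choose d →
    ∃ F : Fin r → MvPolynomial (Fin (m + 1)) (GaloisField p n),
      (∀ i, (F i).IsHomogeneous d) ∧
      LinearIndependent (GaloisField p n) F ∧
      (∀ G : Fin r → MvPolynomial (Fin (m + 1)) (GaloisField p n),
        (∀ i, (G i).IsHomogeneous d) →
        LinearIndependent (GaloisField p n) G →
        {x : Projectivization (GaloisField p n) (Fin (m + 1) → GaloisField p n) |
            ∀ i, MvPolynomial.eval x.rep (G i) = 0}.ncard ≤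
        {x : Projectivization (GaloisField p n) (Fin (m + 1) → GaloisField p n) |
            ∀ i, MvPolynomial.eval x.rep (F i) = 0}.ncard) ∧
      (∀ x : Projectivization (GaloisField p n) (Fin (m + 1) → GaloisField p n),
        (∀ i, MvPolynomial.eval x.rep (F i) = 0) →
        ∃ P ∈ (Ideal.span (Set.range (fun i =>
              MvPolynomial.map
                (algebraMap (GaloisField p n) (AlgebraicClosure (GaloisField p n))) (F i)))).minimalPrimes,
          (∃ S : Set (MvPolynomial (Fin (m + 1)) (AlgebraicClosure (GaloisField p n))),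
            (∀ f ∈ S, f.IsHomogeneous 1) ∧ P = Ideal.span S) ∧
          ∀ f ∈ P, MvPolynomial.eval
            (fun j => algebraMap (GaloisField p n) (AlgebraicClosure (GaloisField p n)) (x.rep j)) f = 0) := by
  intro p _ n hn m d r hm hd hdq hr hrD
  have hcard : Nat.card (GaloisField p n) = p ^ n := GaloisField.card p n hn.ne'
  haveI : Finite (GaloisField p n) := by
    apply Nat.finite_of_card_ne_zero
    rw [hcard]
    exact pow_ne_zero _ (Fact.out : Nat.Prime p).ne_zero
  obtain ⟨F, hF, hLI, hN, hP⟩ := hLow (GaloisField p n) m d r hm hd (by rw [hcard]; exact hdq)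
    hr hrD
  refine ⟨F, hF, hLI, ?_, ?_⟩
  · intro G hG hGLI
    exact maxi hBe hTh hLink (GaloisField p n) m d r _ (by rw [hcard]; exact hdq) hN G hG hGLI
  · intro x hx
    exact hP (AlgebraicClosure (GaloisField p n)) x hx

/-- existence of Macaulay representations -/
theorem macaulay_exists (d : ℕ) : ∀ N : ℕ, ∃ s : ℕ → ℕ,
    (∀ a b, 1 ≤ a → a < b → b ≤ d → s a < s b) ∧
    (0 < d → ∑ a ∈ Icc 1 d, (s a).choose a = N ∧ N < (s d + 1).choose d) := by
  induction d with
  | zero => intro N; exact ⟨fun _ => 0, by intro a b h1 h2 h3; omega, by intro h; omega⟩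
  | succ d ih =>
    intro N
    -- t maximal with C(t, d+1) ≤ N
    have hex : ∃ t, (t + 1).choose (d + 1) > N := by
      refine ⟨N + d, ?_⟩
      have h1 : N + 1 ≤ (N + d + 1).choose (d + 1) := by
        rcases Nat.eq_zero_or_pos d with h | h
        · subst h; simp
        · have h2 : N + 1 ≤ (N + d).choose d := by
            clear ih
            have : (N + 1).choose 1 ≤ (N + d).choose d := by
              have h3 : (N + d).choose d = (N + d).choose N := by
                rw [← Nat.choose_symm_of_eq_add (by ring : N + d = N + d)]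
              have h4 : (N + 1).choose 1 = (N + 1).choose N := by
                rw [← Nat.choose_symm_of_eq_add (by ring : N + 1 = N + 1)]
              rw [h3, h4]
              exact Nat.choose_le_choose N (by omega)
            simpa using this
          have h3 : (N + d + 1).choose (d + 1) = (N + d).choose d + (N + d).choose (d + 1) :=
            Nat.choose_succ_succ _ _
          omega
      omega
    classical
    set t := Nat.find hex with ht
    have ht1 : N < (t + 1).choose (d + 1) := Nat.find_spec hex
    have ht2 : t.choose (d + 1) ≤ N := by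
      rcases Nat.eq_zero_or_pos t with h | h
      · rw [h]; simp
      · have := Nat.find_min hex (show t - 1 < Nat.find hex by omega)
        rw [Nat.sub_add_cancel h] at this
        omega
    rcases Nat.eq_zero_or_pos d with hd | hd
    · subst hd
      refine ⟨fun _ => t, by intro a b h1 h2 h3; omega, ?_⟩
      intro _
      simp at ht1 ht2 ⊢
      omega
    · obtain ⟨s, hs1, hs2⟩ := ih (N - t.choose (d + 1))
      obtain ⟨hs3, hs4⟩ := hs2 hd
      have hrest : N - t.choose (d + 1) < t.choose d := by
        have : (t + 1).choose (d + 1) = t.choose d + t.choose (d + 1) := Nat.choose_succ_succ _ _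
        omega
      have hlt : s d < t := by
        by_contra h
        have h5 : (s d).choose d ≤ N - t.choose (d + 1) := by
          rw [← hs3]
          exact Finset.single_le_sum (f := fun a => (s a).choose a) (fun i _ => Nat.zero_le _)
            (by rw [Finset.mem_Icc]; omega)
        have h6 : t.choose d ≤ (s d).choose d := Nat.choose_le_choose d (by omega)
        omega
      refine ⟨fun a => if a = d + 1 then t else s a, ?_, ?_⟩
      · intro a b h1 h2 h3
        have ha : a ≠ d + 1 := by omega
        simp only [if_neg ha]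
        by_cases hb : b = d + 1
        · simp only [if_pos hb]
          rcases Nat.eq_or_lt_of_le (show a ≤ d by omega) with h | h
          · rw [h]; exact hlt
          · exact lt_trans (hs1 a d h1 h le_rfl) hlt
        · simp only [if_neg hb]
          exact hs1 a b h1 h2 (by omega)
      · intro _
        rw [Finset.sum_Icc_succ_top (by omega)]
        have h7 : ∑ a ∈ Icc 1 d, (if a = d + 1 then t else s a).choose a =
            ∑ a ∈ Icc 1 d, (s a).choose a := by
          apply Finset.sum_congr rfl
          intro a ha
          rw [Finset.mem_Icc] at ha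
          rw [if_neg (by omega)]
        simp only [if_true]
        rw [h7, hs3]
        constructor
        · omega
        · exact ht1

/-- the answer to the question -/
theorem er_of (hBe : BeBasic) (hTh : Th) (hLink : LinkMv) (hLow : LowB) (hLB1 : LB1)
    (K : Type) [Field K] [Finite K] (m d r : ℕ) (hm : 1 ≤ m) (hd : 1 ≤ d)
    (hdq : d < Nat.card K) (hr : 1 ≤ r) (hrD : r ≤ (m + d).choose d) (s : ℕ → ℕ)
    (hs : ∀ a b, 1 ≤ a → a < b → b ≤ d → s a < s b)
    (hsum : ∑ a ∈ Icc 1 d, (s a).choose a = (m + d).choose d - r) :
    IsGreatest {N : ℕ | ∃ F : Fin r → MvPolynomial (Fin (m + 1)) K,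
      (∀ i, (F i).IsHomogeneous d) ∧ LinearIndependent K F ∧
      N = {x : ℙ K (Fin (m + 1) → K) | ∀ i, MvPolynomial.eval x.rep (F i) = 0}.ncard}
      (Lval (Nat.card K) d s) := by
  have hq2 : 2 ≤ Nat.card K := Finite.one_lt_card
  obtain ⟨hL1, hL2⟩ := hLB1 (Nat.card K) d s hq2 hd hdq hs
  constructor
  · obtain ⟨F, hF, hLI, hN, _⟩ := hLow K m d r hm hd hdq hr hrD
    refine ⟨F, hF, hLI, ?_⟩
    have h1 := be_zer hTh hLink K m d r hdq F hF hLI
    apply le_antisymm
    · by_contra h
      have h2 := hBe.1 (Nat.card K) 0 d ((zer F).ncard + 1) (Lval (Nat.card K) d s) (by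
        have : (zer F).ncard < Lval (Nat.card K) d s := not_le.mp h
        omega)
      have hN' : (m + d).choose d < be (Nat.card K) 0 d ((zer F).ncard + 1) + r := hN
      omega
    · by_contra h
      have h2 := hBe.1 (Nat.card K) 0 d (Lval (Nat.card K) d s + 1) (zer F).ncard (by
        have : Lval (Nat.card K) d s < (zer F).ncard := not_le.mp h
        omega)
      omega
  · rintro N ⟨G, hG, hGLI, rfl⟩
    exact maxi hBe hTh hLink K m d r _ hdq (by omega) G hG hGLI

end Pool.Agent.W477.ER
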