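import Pool.Agent.W477.ER.Stm

/-!
# The inequality IneqI
-/

set_option autoImplicit false

namespace Pool.Agent.W477.ER

/-- q = 3 -/
theorem ii_three (N P c r : ℤ) (hr : 1 ≤ r) (hrc : r ≤ c) (h6 : 6 * c ≤ N) (hP : 0 ≤ P - 1)
    (hN : 2 ≤ N) (h1 : c * (P - N) ≤ N * (N - 1)) :
    (P - 1) * (3 * r - 2 * c - 4) < 4 * (N - c) * (N - c - 1) := by
  have h2 : (P - 1) * (3 * r - 2 * c - 4) ≤ (P - 1) * c := by
    apply mul_le_mul_of_nonneg_left _ hP
    linarith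
  have h3 : (P - 1) * c = c * (P - N) + c * (N - 1) := by ring
  obtain ⟨z, hz⟩ : ∃ z, N = 6 * c + z := ⟨N - 6 * c, by ring⟩
  have hz0 : 0 ≤ z := by linarith
  have hc1 : 1 ≤ c := by linarith
  subst hz
  nlinarith [mul_nonneg hz0 (by linarith : (0:ℤ) ≤ c), mul_nonneg hz0 hz0,
    mul_nonneg (by linarith : (0:ℤ) ≤ c - 1) (by linarith : (0:ℤ) ≤ c - 1)]

/-- large dimension -/
theorem ii_large (q N P c r : ℤ) (hq : 4 ≤ q) (hr : r + 1 ≤ 2 * c) (hc0 : 0 ≤ c)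
    (h25 : 25 * c ≤ N) (hP : 0 ≤ P - 1)
    (hN : 20 ≤ N) (h1 : 2 * c * (P - N) ≤ (q - 1) * N * (N - 1)) :
    (P - 1) * (q * r - (q - 1) * c - q - 1) < (q - 1) ^ 2 * (N - c) * (N - c - 1) := by
  have h2 : (P - 1) * (q * r - (q - 1) * c - q - 1) ≤ (P - 1) * ((q + 1) * c - (2 * q + 1)) := by
    apply mul_le_mul_of_nonneg_left _ hP
    nlinarith
  have h3 : (P - 1) * ((q + 1) * c - (2 * q + 1)) ≤ (q + 1) * ((P - 1) * c) := by
    nlinarith
  have h4 : 2 * ((P - 1) * c) ≤ (q - 1) * N * (N - 1) + 2 * c * (N - 1) := by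
    have : 2 * ((P - 1) * c) = 2 * c * (P - N) + 2 * c * (N - 1) := by ring
    linarith
  have h5 : 2 * ((P - 1) * (q * r - (q - 1) * c - q - 1)) ≤
      (q + 1) * ((q - 1) * N * (N - 1) + 2 * c * (N - 1)) := by
    have := mul_le_mul_of_nonneg_left h4 (by linarith : (0 : ℤ) ≤ q + 1)
    linarith
  have h6 : (q + 1) * ((q - 1) * N * (N - 1) + 2 * c * (N - 1)) <
      2 * ((q - 1) ^ 2 * (N - c) * (N - c - 1)) := by
    obtain ⟨z, hz⟩ : ∃ z, N = 25 * c + z := ⟨N - 25 * c, by ring⟩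
    have hz0 : 0 ≤ z := by linarith
    obtain ⟨b, hb⟩ : ∃ b, q = 4 + b := ⟨q - 4, by ring⟩
    have hb0 : 0 ≤ b := by linarith
    have key : 0 ≤ 20 * (q - 1) ^ 2 * (24 * c + z) ^ 2 - 10 * (q ^ 2 - 1) * (25 * c + z) ^ 2
        - 20 * (q + 1) * c * (25 * c + z) - (q - 1) ^ 2 * (25 * c + z) ^ 2 := by
      rw [hb]
      ring_nf
      positivity
    have h7 : 0 ≤ (q - 1) ^ 2 * N * (N - 20) := by
      apply mul_nonneg
      · positivity
      · linarith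
    have h8 : 0 ≤ (q - 1) ^ 2 * c := by positivity
    have h9 : 0 < (q ^ 2 - 1) * N := by
      apply mul_pos
      · nlinarith
      · linarith
    have h10 : 0 ≤ (q + 1) * c := by
      apply mul_nonneg
      · linarith
      · exact hc0
    subst hz
    nlinarith
  linarith

/-- dimension l + 4 -/
theorem ii_small (q p0 Q N P c r : ℤ) (hq : 4 ≤ q) (hp0 : 1 ≤ p0) (hQ : Q = (q - 1) * p0 + 1)
    (hN : N = p0 + Q + q * Q + r) (hP : P = p0 + Q + q * Q + q ^ 2 * Q + q ^ 3 * Q)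
    (hr1 : 1 ≤ r) (hrQ : r ≤ Q) (hr : r + 1 ≤ 2 * c) :
    (P - 1) * (q * r - (q - 1) * c - q - 1) < (q - 1) ^ 2 * (N - c) * (N - c - 1) := by
  obtain ⟨δ, hδ⟩ : ∃ δ, 2 * c = r + 1 + δ := ⟨2 * c - r - 1, by ring⟩
  have hδ0 : 0 ≤ δ := by linarith
  obtain ⟨ρ, hρ⟩ : ∃ ρ, r = 1 + ρ := ⟨r - 1, by ring⟩
  have hρ0 : 0 ≤ ρ := by linarith
  have hρQ : ρ ≤ Q := by linarith
  obtain ⟨B, hB⟩ : ∃ B, B = p0 + Q + q * Q := ⟨_, rfl⟩
  obtain ⟨b, hb⟩ : ∃ b, q = 4 + b := ⟨q - 4, by ring⟩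
  have hb0 : 0 ≤ b := by linarith
  obtain ⟨t, ht⟩ : ∃ t, p0 = 1 + t := ⟨p0 - 1, by ring⟩
  have ht0 : 0 ≤ t := by linarith
  -- slope in δ
  have hslope : 0 ≤ (P - 1) - 2 * (q - 1) * (B + Q) := by
    rw [hP, hB, hQ, hb, ht]
    ring_nf
    positivity
  -- values at the ends
  have hh0 : 0 < (q - 1) ^ 2 * (B * (B - 1)) + (P - 1) * q := by
    rw [hP, hB, hQ, hb, ht]
    ring_nf
    positivity
  have hhQ : 0 < 2 * (q - 1) ^ 2 * (B * (B - 1)) + (q - 1) ^ 2 * (Q * (2 * B - 1))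
      - (P - 1) * (q + 1) * Q + 2 * (P - 1) * q := by
    rw [hP, hB, hQ, hb, ht]
    ring_nf
    positivity
  have hQ0 : 0 < Q := by
    rw [hQ]; nlinarith
  -- main: 4 * difference
  have hlin : 0 < 2 * (q - 1) ^ 2 * (B * (B - 1)) + (q - 1) ^ 2 * (ρ * (2 * B - 1))
      - (P - 1) * (q + 1) * ρ + 2 * (P - 1) * q := by
    have e : Q * (2 * (q - 1) ^ 2 * (B * (B - 1)) + (q - 1) ^ 2 * (ρ * (2 * B - 1))
      - (P - 1) * (q + 1) * ρ + 2 * (P - 1) * q) =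
      (Q - ρ) * (2 * ((q - 1) ^ 2 * (B * (B - 1)) + (P - 1) * q)) +
      ρ * (2 * (q - 1) ^ 2 * (B * (B - 1)) + (q - 1) ^ 2 * (Q * (2 * B - 1))
      - (P - 1) * (q + 1) * Q + 2 * (P - 1) * q) := by ring
    have h1 : 0 < Q * (2 * (q - 1) ^ 2 * (B * (B - 1)) + (q - 1) ^ 2 * (ρ * (2 * B - 1))
      - (P - 1) * (q + 1) * ρ + 2 * (P - 1) * q) := by
      rw [e]
      rcases eq_or_lt_of_le hρ0 with h | h
      · rw [← h]
        have : 0 < (Q - 0) * (2 * ((q - 1) ^ 2 * (B * (B - 1)) + (P - 1) * q)) := by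
          apply mul_pos
          · linarith
          · linarith
        linarith
      · have h2 : 0 ≤ (Q - ρ) * (2 * ((q - 1) ^ 2 * (B * (B - 1)) + (P - 1) * q)) := by
          apply mul_nonneg
          · linarith
          · linarith
        have h3 := mul_pos h hhQ
        linarith
    exact (mul_pos_iff_of_pos_left hQ0).mp h1
  have hA : N - c = B + (1 + ρ) - c := by rw [hN, hB, hρ]
  have h2c : 2 * c = 2 + ρ + δ := by linarith
  have hδpart : 0 ≤ (q - 1) * δ * ((P - 1) - 2 * (q - 1) * (B + Q)) := by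
    apply mul_nonneg
    · apply mul_nonneg
      · linarith
      · exact hδ0
    · exact hslope
  -- 4 * (RHS - LHS)
  have hfinal : 4 * ((q - 1) ^ 2 * (N - c) * (N - c - 1) -
      (P - 1) * (q * r - (q - 1) * c - q - 1)) =
      2 * (2 * (q - 1) ^ 2 * (B * (B - 1)) + (q - 1) ^ 2 * (ρ * (2 * B - 1))
      - (P - 1) * (q + 1) * ρ + 2 * (P - 1) * q)
      + 2 * ((q - 1) * δ * ((P - 1) - 2 * (q - 1) * (B + Q)))
      + (q - 1) ^ 2 * (ρ ^ 2 + δ ^ 2 + 2 * δ + 2 * δ * (2 * Q - ρ)) := by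
    rw [hA, hρ]
    have hc : c = (2 + ρ + δ) - c := by linarith
    have h4 : 4 * ((q - 1) ^ 2 * (B + (1 + ρ) - c) * (B + (1 + ρ) - c - 1)) =
        (q - 1) ^ 2 * (2 * B + 2 * (1 + ρ) - 2 * c) * (2 * B + 2 * (1 + ρ) - 2 * c - 2) := by ring
    have h5 : 4 * ((P - 1) * (q * (1 + ρ) - (q - 1) * c - q - 1)) =
        2 * (P - 1) * (2 * q * (1 + ρ) - (q - 1) * (2 * c) - 2 * q - 2) := by ring
    rw [mul_sub, h4, h5, h2c]
    ring
  have hlast : 0 ≤ (q - 1) ^ 2 * (ρ ^ 2 + δ ^ 2 + 2 * δ + 2 * δ * (2 * Q - ρ)) := by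
    apply mul_nonneg
    · positivity
    · have : 0 ≤ 2 * δ * (2 * Q - ρ) := by
        apply mul_nonneg
        · linarith
        · linarith
      positivity
  linarith

theorem ineqI_of (hPp : PpBasic) : IneqI := by
  intro q l r M c N P P' hq3 hl hM hr1 hrQ hP hP' hN h1 h2 h3 h4
  obtain ⟨_, _, hs, hs', hgeo, hmono⟩ := hPp
  -- P = q P' + 1
  have hPP' : P = q * P' + 1 := by
    obtain ⟨M', hM'⟩ : ∃ M', M = M' + 1 := ⟨M - 1, by omega⟩
    rw [hP, hP', hM', hs' q M']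
    simp
  -- the basic quantities
  have eQ : ((q : ℤ) ^ l) = ((q : ℤ) - 1) * (pp q l : ℤ) + 1 := by
    have h := hgeo q l (by omega)
    have h' : (((q - 1) * pp q l + 1 : ℕ) : ℤ) = ((q ^ l : ℕ) : ℤ) := by exact_mod_cast h
    rw [Nat.cast_add, Nat.cast_mul, Nat.cast_sub (by omega : 1 ≤ q)] at h'
    push_cast at h'
    linarith
  have e1 : (pp q (l + 1) : ℤ) = (pp q l : ℤ) + (q : ℤ) ^ l := by
    rw [hs q l]; push_cast; ring
  have e2 : (pp q (l + 2) : ℤ) = (pp q l : ℤ) + (q : ℤ) ^ l + q * (q : ℤ) ^ l := by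
    have : (pp q (l + 1 + 1) : ℤ) = (pp q (l + 1) : ℤ) + (q : ℤ) ^ (l + 1) := by
      rw [hs q (l + 1)]; push_cast; ring
    rw [show l + 2 = l + 1 + 1 from rfl, this, e1]; ring
  have e3 : (pp q (l + 3) : ℤ) = (pp q l : ℤ) + (q : ℤ) ^ l + q * (q : ℤ) ^ l
      + q ^ 2 * (q : ℤ) ^ l := by
    have : (pp q (l + 2 + 1) : ℤ) = (pp q (l + 2) : ℤ) + (q : ℤ) ^ (l + 2) := by
      rw [hs q (l + 2)]; push_cast; ring
    rw [show l + 3 = l + 2 + 1 from rfl, this, e2]; ring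
  have e4 : (pp q (l + 4) : ℤ) = (pp q l : ℤ) + (q : ℤ) ^ l + q * (q : ℤ) ^ l
      + q ^ 2 * (q : ℤ) ^ l + q ^ 3 * (q : ℤ) ^ l := by
    have : (pp q (l + 3 + 1) : ℤ) = (pp q (l + 3) : ℤ) + (q : ℤ) ^ (l + 3) := by
      rw [hs q (l + 3)]; push_cast; ring
    rw [show l + 4 = l + 3 + 1 from rfl, this, e3]; ring
  have e5 : (pp q (l + 5) : ℤ) = (pp q l : ℤ) + (q : ℤ) ^ l + q * (q : ℤ) ^ l
      + q ^ 2 * (q : ℤ) ^ l + q ^ 3 * (q : ℤ) ^ l + q ^ 4 * (q : ℤ) ^ l := by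
    have : (pp q (l + 4 + 1) : ℤ) = (pp q (l + 4) : ℤ) + (q : ℤ) ^ (l + 4) := by
      rw [hs q (l + 4)]; push_cast; ring
    rw [show l + 5 = l + 4 + 1 from rfl, this, e4]; ring
  have hp0 : (1 : ℤ) ≤ (pp q l : ℤ) := by
    have := hmono q 1 l hl
    have h11 : pp q 1 = 1 := by unfold pp; simp
    rw [h11] at this
    exact_mod_cast this
  have hrQz : (r : ℤ) ≤ (q : ℤ) ^ l := by exact_mod_cast hrQ
  have hr1z : (1 : ℤ) ≤ (r : ℤ) := by exact_mod_cast hr1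
  have h2z : (r : ℤ) + 1 ≤ 2 * (c : ℤ) := by exact_mod_cast h2
  have hc1 : (1 : ℤ) ≤ (c : ℤ) := by linarith
  have hq3z : (3 : ℤ) ≤ (q : ℤ) := by exact_mod_cast hq3
  set Q : ℤ := (q : ℤ) ^ l with hQdef
  set p0 : ℤ := (pp q l : ℤ) with hp0def
  have hN2 : N = p0 + Q + q * Q + r := by rw [hN, e2]
  have hQpos : 0 < Q := by rw [eQ]; nlinarith
  have hP4 : p0 + Q + q * Q + q ^ 2 * Q + q ^ 3 * Q ≤ P := by
    have := hmono q (l + 4) M hM
    rw [hP, ← e4]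
    exact_mod_cast this
  have hp0Q : 2 * p0 ≤ Q := by rw [eQ]; nlinarith
  have hN20 : p0 + 4 * Q + 1 ≤ N := by rw [hN2]; nlinarith
  have hPpos : 0 ≤ P - 1 := by nlinarith [sq_nonneg (q : ℤ), mul_pos (by linarith : (0:ℤ) < q) hQpos]
  have hgoal : (q : ℤ) * P' * (q * r - ((q : ℤ) - 1) * c - q - 1) =
      (P - 1) * (q * r - ((q : ℤ) - 1) * c - q - 1) := by rw [hPP']; ring
  rw [hgoal]
  by_cases h33 : q = 3
  · -- q = 3
    subst h33
    have hrc : (r : ℤ) ≤ c := by exact_mod_cast h4 rfl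
    push_cast at *
    have hH1 : (c : ℤ) * (P - N) ≤ N * (N - 1) := by linarith
    have h6 : 6 * (c : ℤ) ≤ N := by
      have hPN : 35 * Q ≤ P - N := by linarith
      have hNQ : 2 * N ≤ 11 * Q := by linarith
      by_contra hcon
      rw [not_le] at hcon
      have a1 : (c : ℤ) * (35 * Q) ≤ c * (P - N) := mul_le_mul_of_nonneg_left hPN (by linarith)
      have a2 : 2 * (N * (N - 1)) ≤ 11 * Q * (N - 1) := by
        have := mul_le_mul_of_nonneg_right hNQ (by linarith : (0 : ℤ) ≤ N - 1)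
        linarith
      have a3 : Q * (70 * c) ≤ Q * (11 * (N - 1)) := by linarith
      have a4 := le_of_mul_le_mul_left a3 hQpos
      linarith
    have := ii_three N P c r hr1z hrc h6 hPpos (by linarith) hH1
    linarith
  have hq4 : 4 ≤ q := by omega
  have hq4z : (4 : ℤ) ≤ (q : ℤ) := by exact_mod_cast hq4
  by_cases hM4 : M = l + 4
  · exact ii_small q p0 Q N P c r hq4z hp0 eQ hN2 (by rw [hP, hM4, e4]) hr1z hrQz h2z
  · -- large dimension
    have hP5 : p0 + Q + q * Q + q ^ 2 * Q + q ^ 3 * Q + q ^ 4 * Q ≤ P := by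
      have := hmono q (l + 5) M (by omega)
      rw [hP, ← e5]
      exact_mod_cast this
    have h25 : 25 * (c : ℤ) ≤ N := by
      have hPN : (q : ℤ) ^ 3 * (q + 1) * Q ≤ P - N := by
        rw [hN2]
        have : (r : ℤ) ≤ q ^ 2 * Q := by nlinarith [mul_pos (by linarith : (0:ℤ) < q) hQpos]
        nlinarith
      have hNQ : N ≤ (q + 3) * Q := by rw [hN2]; linarith
      by_contra hcon
      rw [not_le] at hcon
      have a1 : 2 * (c : ℤ) * ((q : ℤ) ^ 3 * (q + 1) * Q) ≤ 2 * c * (P - N) :=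
        mul_le_mul_of_nonneg_left hPN (by linarith)
      have hN0 : 0 ≤ N := by linarith
      have a2 : ((q : ℤ) - 1) * N * (N - 1) ≤ (q - 1) * ((q + 3) * Q) * N := by
        have b1 : ((q : ℤ) - 1) * N * (N - 1) ≤ ((q : ℤ) - 1) * N * N := by
          apply mul_le_mul_of_nonneg_left _ (mul_nonneg (by linarith) hN0)
          linarith
        have b2 : ((q : ℤ) - 1) * N * N ≤ (q - 1) * ((q + 3) * Q) * N := by
          apply mul_le_mul_of_nonneg_right _ hN0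
          apply mul_le_mul_of_nonneg_left hNQ (by linarith)
        linarith
      have a3 : Q * (2 * c * (q ^ 3 * (q + 1))) ≤ Q * ((q - 1) * (q + 3) * N) := by
        calc Q * (2 * c * ((q : ℤ) ^ 3 * (q + 1))) = 2 * (c : ℤ) * ((q : ℤ) ^ 3 * (q + 1) * Q) := by
              ring
          _ ≤ 2 * c * (P - N) := a1
          _ ≤ (q - 1) * N * (N - 1) := h1
          _ ≤ (q - 1) * ((q + 3) * Q) * N := a2
          _ = Q * ((q - 1) * (q + 3) * N) := by ring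
      have a4 := le_of_mul_le_mul_left a3 hQpos
      have a5 : ((q : ℤ) - 1) * (q + 3) * N ≤ (q - 1) * (q + 3) * (25 * c) := by
        apply mul_le_mul_of_nonneg_left hcon.le
        apply mul_nonneg <;> linarith
      have a6 : (c : ℤ) * (2 * (q ^ 3 * (q + 1))) ≤ c * (25 * ((q - 1) * (q + 3))) := by linarith
      have a7 := le_of_mul_le_mul_left a6 (by linarith : (0 : ℤ) < c)
      obtain ⟨b, hb⟩ : ∃ b : ℤ, (q : ℤ) = 4 + b := ⟨(q : ℤ) - 4, by ring⟩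
      have hb0 : 0 ≤ b := by linarith
      rw [hb] at a7
      nlinarith [mul_nonneg hb0 hb0, mul_nonneg (mul_nonneg hb0 hb0) hb0,
        mul_nonneg (mul_nonneg hb0 hb0) (mul_nonneg hb0 hb0)]
    have hN20' : 20 ≤ N := by
      rw [hN2]
      have : 4 ≤ Q := by rw [eQ]; nlinarith
      nlinarith
    exact ii_large q N P c r hq4z h2z (by linarith) h25 hPpos hN20' (by linarith)

end Pool.Agent.W477.ER
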