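import Pool.Agent.W477.ER.Asm2
import Pool.Agent.W477.ER.Fin
import Pool.Agent.W477.ER.II
import Pool.Agent.W477.ER.Cone
import Pool.Agent.W351.ER.Al
import Pool.Agent.W351.ER.AlW
import Pool.Agent.W351.ER.Be
import Pool.Agent.W351.ER.CLz
import Pool.Agent.W351.ER.Lay
import Pool.Agent.W351.ER.U
import Pool.Agent.W376.ER.PTl
import Pool.Agent.W479.ER.LB1
import Pool.Agent.W479.ER.N2
import Pool.Agent.W479.ER.Sat
import Pool.Agent.W583.ER.Ineq
import Pool.Agent.W583.ER.IneqV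
import Pool.Agent.W598.ER.LowB
import Pool.Agent.W598.ER.N3
import Pool.Agent.W598.ER.XX
import Pool.Agent.W646.ER.CL
import Pool.Agent.W646.ER.V
import Pool.Agent.W646.ER.V2B
import Pool.Agent.W932.ER.C1
import Pool.Agent.W11.ER.DC
import Pool.Agent.W11.ER.N1
import Pool.Agent.W227.ER.Geo
import Pool.Agent.W477.ER.CanC
import Pool.Agent.W477.ER.LemAC
import Pool.Agent.W583.ER.V45
import Pool.Agent.W11.ER.Link

/-!
# All pieces together
-/

set_option autoImplicit false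

namespace Pool.Agent.W477.ER

theorem p_cl : CL := Pool.Agent.W646.ER.cl_of Pool.Agent.W351.ER.cl0
theorem p_alBasic : AlBasic := Pool.Agent.W351.ER.alBasic
theorem p_lay : LAY := by
  first
  | exact Pool.Agent.W351.ER.lay_of p_cl
  | exact Pool.Agent.W351.ER.lay_of p_cl p_alBasic
  | exact Pool.Agent.W351.ER.lay_of p_alBasic p_cl
theorem p_alL2 : AlL2 := Pool.Agent.W351.ER.alL2_of p_lay
theorem p_alSub : AlSub := Pool.Agent.W351.ER.alSub_of p_alL2 p_alBasic
theorem p_alSplit : AlSplit := Pool.Agent.W351.ER.alSplit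
theorem p_alPow : AlPow := Pool.Agent.W351.ER.alPow
theorem p_alSat : AlSat := Pool.Agent.W351.ER.alSat
theorem p_alShift : AlShift := Pool.Agent.W351.ER.alShift
theorem p_alDrop : AlDrop := Pool.Agent.W351.ER.alDrop
theorem p_gg : GgBasic := Pool.Agent.W351.ER.ggBasic
theorem p_alW : AlW := Pool.Agent.W351.ER.alW_of p_alBasic p_alL2 p_alSub p_alDrop p_gg
theorem p_pp : PpBasic := Pool.Agent.W351.ER.ppBasic
theorem p_be : BeBasic := Pool.Agent.W351.ER.beBasic
theorem p_beBlock : BeBlock := Pool.Agent.W351.ER.beBlock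
theorem p_bePP : BePP := Pool.Agent.W351.ER.bePP
theorem p_beShift : BeShift := Pool.Agent.W351.ER.beShift_of p_alSub
theorem p_beSat : BeSat := Pool.Agent.W351.ER.beSat
theorem p_xx : XxBasic := Pool.Agent.W598.ER.xxBasic_of p_gg p_pp
theorem p_beX1 : BeX1 := Pool.Agent.W598.ER.beX1_of p_alBasic p_alShift p_pp p_beBlock p_bePP
theorem p_beCan : BeCan := Pool.Agent.W477.ER991.beCan_of p_alSplit p_pp p_beBlock p_bePP
theorem p_canon : Canon := Pool.Agent.W477.ER991.canon_of p_alBasic p_alSplit p_alSat p_pp p_beBlock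
  p_bePP
theorem p_totGe : TotGe := Pool.Agent.W479.ER.totGe p_be
theorem p_small : Small := Pool.Agent.W479.ER.small_of p_be
theorem p_c1 : C1 := Pool.Agent.W932.ER.c1_of p_lay p_alBasic p_pp p_beBlock p_bePP p_beShift
theorem p_dc : DC := Pool.Agent.W11.ER.dc
theorem p_ineqG : IneqG := Pool.Agent.W583.ER.ineqG
theorem p_fq : FQ := Pool.Agent.W583.ER.fq
theorem p_ineqC : IneqC := Pool.Agent.W583.ER.ineqC
theorem p_ineqV5 : IneqV5 := Pool.Agent.W583.ER.ineqV5
theorem p_ineqV43 : IneqV43 := Pool.Agent.W583.ER.ineqV43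
theorem p_ineqV44 : IneqV44 := Pool.Agent.W583.ER.ineqV44
theorem p_ineqL : IneqL := Pool.Agent.W583.ER.ineqL
theorem p_ineqI : IneqI := ineqI_of p_pp
theorem p_pt : PT := Pool.Agent.W376.ER.pt
theorem p_hh : HhBasic := Pool.Agent.W376.ER.hhBasic
theorem p_geoLin : GeoLin := Pool.Agent.W227.ER.geoLin
theorem p_cardP : CardP := Pool.Agent.W227.ER.cardP
theorem p_cone : Cone := cone_of p_dc p_geoLin p_cardP
theorem p_lb1 : LB1 := Pool.Agent.W479.ER.lb1_of p_alBasic p_alPow p_alShift p_pp p_be p_beBlock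
  p_bePP
theorem p_lowB : LowB := Pool.Agent.W598.ER.lowB p_alBasic p_alPow p_pp p_be p_bePP

theorem p_link : LinkMv := Pool.Agent.W11.ER.linkMv
theorem hLemA : LemA := Pool.Agent.W477.ER991.lemA_of p_cl p_lay p_alBasic p_alSplit p_alSat
theorem q_u : U := Pool.Agent.W351.ER.u_of hLemA p_beX1 p_xx p_beCan
theorem q_satD : SatD := Pool.Agent.W479.ER.satD_of p_alBasic p_beSat p_beCan p_totGe q_u
theorem q_satOut : SatOut := Pool.Agent.W479.ER.satOut_of p_alBasic p_lay p_beX1 p_xx p_beSat p_pp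
  p_beCan p_totGe q_u
theorem q_satIn : SatIn := by
  first
  | exact Pool.Agent.W479.ER.satIn_of p_alBasic p_lay p_beX1 p_xx p_beSat p_pp
      p_beCan p_totGe q_u
  | exact Pool.Agent.W479.ER.satIn_of p_alBasic p_lay p_beX1 p_xx p_beSat p_pp p_beCan p_totGe
      q_u p_be
theorem q_q3 : Q3 := Pool.Agent.W932.ER.q3_of p_alBasic p_alPow p_pp p_be p_beBlock p_bePP p_beSat
  p_beCan q_satD p_c1
theorem q_v1 : V1 := Pool.Agent.W646.ER.v1_of p_lay p_alBasic p_pp p_beSat p_beX1 p_xx p_beCan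
  p_totGe q_u p_c1
theorem q_v2 : V2 := Pool.Agent.W646.ER.v2_of p_lay p_alBasic p_alPow p_alSat p_alShift p_alSub p_pp
  p_beBlock p_bePP p_beShift p_beCan p_totGe q_v1
theorem q_v3 : V3 := Pool.Agent.W646.ER.v3_of p_alBasic p_alPow p_pp p_be p_beBlock p_bePP p_beCan
  p_totGe q_v1
theorem q_v2B : V2B := Pool.Agent.W646.ER.v2B_of p_lay p_alBasic p_alPow p_alShift p_alW p_gg p_pp
  p_beBlock p_bePP p_beShift p_beX1 p_xx p_beCan p_c1 q_v2
theorem q_n1 : N1 := Pool.Agent.W11.ER.n1_of p_dc q_satD q_satOut q_satIn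
  p_fq p_ineqG p_pp
theorem q_n2 : N2 := Pool.Agent.W479.ER.n2_of p_pp p_c1 q_q3 p_ineqC p_dc
theorem q_n3 : N3 := Pool.Agent.W598.ER.n3_of p_pp q_v1 q_v2 q_v2B
  q_v3 p_ineqV5 p_ineqV43 p_ineqV44 p_dc
theorem q_v4 : V4 := Pool.Agent.W583.ER.v4_of p_lay p_alBasic p_pp p_beSat p_beX1 p_xx hLemA p_totGe
theorem q_v5 : V5 := Pool.Agent.W583.ER.v5_of p_lay p_alBasic p_alSat p_pp p_beSat p_beX1 p_xx
  p_beCan p_totGe q_v1

/-- the main theorem: lower bound for the Hilbert function of a set of rational points -/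
theorem th : Th :=
  th_of p_lay p_alBasic p_alSub p_pp p_be p_xx p_beX1 p_beCan p_canon p_small q_v1 q_v4 q_v5
    p_ineqL p_ineqI p_dc q_n1 q_n2 q_n3 p_pt p_geoLin p_cardP p_hh p_cone

end Pool.Agent.W477.ER
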