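import Pool.Agent.W477.ER.Stm

/-!
# Assembly of the main theorem Th
-/

set_option autoImplicit false

namespace Pool.Agent.W477.ER

open Finset
open scoped LinearAlgebra.Projectivization

/-- the theorem for spaces of dimension M -/
def ThM (K : Type) [Field K] (M : ℕ) : Prop :=
  ∀ (V : Type) [AddCommGroup V] [Module K V] [Finite V] (d : ℕ) (X : Finset (ℙ K V)),
    Module.finrank K V = M → d < Nat.card K → be (Nat.card K) 0 d X.card ≤ hh K V d X

theorem finite_quot {K : Type} [Field K] {V : Type} [AddCommGroup V] [Module K V] [Finite V]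
    (W : Submodule K V) : Finite (V ⧸ W) :=
  Finite.of_surjective (W.mkQ) (Submodule.mkQ_surjective _)

theorem ind_of_mem {α : Type} {X : Finset α} {P : α} (h : P ∈ X) : ind X P = 1 := by
  unfold ind; rw [if_pos h]

theorem ind_of_not_mem {α : Type} {X : Finset α} {P : α} (h : P ∉ X) : ind X P = 0 := by
  unfold ind; rw [if_neg h]

/-- the layering bound -/
theorem good_hh (hBe : BeBasic) (hPT : PT) (hC : CardP)
    (K : Type) [Field K] [Finite K] (V : Type) [AddCommGroup V] [Module K V] [Finite V]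
    (IH : ∀ M' < Module.finrank K V, ThM K M') (d : ℕ) (hd : d < Nat.card K)
    (X : Finset (ℙ K V)) (P : ℙ K V) :
    tot (Nat.card K) d (ind X P) (fun i => (lay P X i).card) ≤ hh K V d X := by
  haveI := finite_quot (K := K) P.submodule
  have hfr := (hC K V).2 P
  have IH' : ∀ e (Y : Finset (ℙ K (V ⧸ P.submodule))), e < Nat.card K →
      be (Nat.card K) 0 e Y.card ≤ hh K (V ⧸ P.submodule) e Y := by
    intro e Y he
    exact IH _ (by omega) (V ⧸ P.submodule) e Y rfl he
  obtain ⟨_, _, _, hb0, hb1, _⟩ := hBe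
  by_cases hP : P ∈ X
  · rw [ind_of_mem hP]
    unfold tot
    rw [if_neg (by norm_num)]
    refine le_trans ?_ ((hPT K V X P d).2 hP)
    apply Nat.add_le_add_left
    apply Finset.sum_le_sum
    intro i hi
    have hi' := Finset.mem_range.mp hi
    rw [hb1 _ i d _ (by omega)]
    exact IH' (d - i) _ (by omega)
  · rw [ind_of_not_mem hP]
    unfold tot
    rw [if_pos rfl]
    refine le_trans ?_ ((hPT K V X P d).1 hP)
    have h1 : ∑ i ∈ range (Nat.card K), be (Nat.card K) i d (lay P X i).card =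
        ∑ i ∈ range (d + 1), be (Nat.card K) i d (lay P X i).card := by
      symm
      apply Finset.sum_subset
      · intro i hi
        rw [Finset.mem_range] at hi ⊢
        omega
      · intro i _ hi
        rw [Finset.mem_range] at hi
        exact hb0 _ _ _ _ (by omega)
    rw [h1]
    apply Finset.sum_le_sum
    intro i hi
    have hi' := Finset.mem_range.mp hi
    rw [hb1 _ i d _ (by omega)]
    exact IH' (d - i) _ (by omega)

/-- Chebyshev -/
theorem cheb (q : ℕ) (n : ℕ → ℕ) (hn : Antitone n) :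
    ∑ i ∈ Ico 1 q, 2 * i * n i ≤ q * cc q n := by
  unfold cc
  have hr : ∀ f : ℕ → ℕ, ∑ i ∈ Ico 1 q, f (q - i) = ∑ i ∈ Ico 1 q, f i := by
    intro f
    apply Finset.sum_nbij' (fun i => q - i) (fun i => q - i)
    · intro i hi; rw [Finset.mem_Ico] at hi ⊢; omega
    · intro i hi; rw [Finset.mem_Ico] at hi ⊢; omega
    · intro i hi; rw [Finset.mem_Ico] at hi; omega
    · intro i hi; rw [Finset.mem_Ico] at hi; omega
    · intro i _; rfl
  have h1 := hr (fun i => 2 * i * n i)
  have h2 := hr (fun i => n i)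
  have h3 : ∑ i ∈ Ico 1 q, (2 * i * n i + 2 * (q - i) * n (q - i)) ≤
      ∑ i ∈ Ico 1 q, q * (n i + n (q - i)) := by
    apply Finset.sum_le_sum
    intro i hi
    rw [Finset.mem_Ico] at hi
    obtain ⟨j, hj⟩ : ∃ j, q = i + j := ⟨q - i, by omega⟩
    have hj' : q - i = j := by omega
    rw [hj', hj]
    rcases Nat.le_total i j with h | h
    · have h4 := hn h
      obtain ⟨a, ha⟩ : ∃ a, j = i + a := ⟨j - i, by omega⟩
      obtain ⟨b, hb⟩ : ∃ b, n i = n j + b := ⟨n i - n j, by omega⟩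
      rw [hb]
      subst ha
      nlinarith [Nat.zero_le (a * b)]
    · have h4 := hn h
      obtain ⟨a, ha⟩ : ∃ a, i = j + a := ⟨i - j, by omega⟩
      obtain ⟨b, hb⟩ : ∃ b, n j = n i + b := ⟨n j - n i, by omega⟩
      rw [hb]
      subst ha
      nlinarith [Nat.zero_le (a * b)]
  rw [Finset.sum_add_distrib, h1, ← Finset.mul_sum, Finset.sum_add_distrib, h2] at h3
  have h5 : q * (∑ i ∈ Ico 1 q, n i + ∑ i ∈ Ico 1 q, n i) = 2 * (q * ∑ i ∈ Ico 1 q, n i) := by
    ring
  omega

theorem sum_range_eq_cc (q : ℕ) (hq : 1 ≤ q) (n : ℕ → ℕ) :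
    ∑ i ∈ range q, n i = n 0 + cc q n := by
  unfold cc
  rw [Finset.range_eq_Ico, Finset.sum_eq_sum_Ico_succ_bot (by omega)]

/-- the special case of N3 -/
theorem special (hLAY : LAY) (hAlB : AlBasic) (hAlSub : AlSub) (hPp : PpBasic) (hBe : BeBasic)
    (hXx : XxBasic) (hBeX1 : BeX1) (hCan : BeCan) (hV1 : V1) (hV4 : V4) (hV5 : V5)
    (hIL : IneqL) (hII : IneqI) (hDC : DC) (hPT : PT) (hGL : GeoLin) (hC : CardP) (hCone : Cone)
    (K : Type) [Field K] [Finite K] (V : Type) [AddCommGroup V] [Module K V] [Finite V]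
    (IH : ∀ M' < Module.finrank K V, ThM K M') (d l r : ℕ)
    (X : Finset (ℙ K V)) (hq3 : 3 ≤ Nat.card K) (hd2 : 2 ≤ d) (hl : 1 ≤ l)
    (hM : l + 4 ≤ Module.finrank K V)
    (hPar : Par (Nat.card K) d l 1 r X.card) (hr : r ≤ Nat.card K ^ l)
    (hbad : ∀ P : ℙ K V, tot (Nat.card K) d (ind X P) (fun i => (lay P X i).card) <
      be (Nat.card K) 0 d X.card)
    (P0 : ℙ K V) (hP0 : P0 ∉ X)
    (h1 : 2 * cc (Nat.card K) (fun i => (lay P0 X i).card) *
      (pp (Nat.card K) (Module.finrank K V) - X.card) ≤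
        (Nat.card K - 1) * (X.card * (X.card - 1)))
    (h2 : r + 1 ≤ 2 * cc (Nat.card K) (fun i => (lay P0 X i).card))
    (h4 : Nat.card K = 3 → r ≤ cc (Nat.card K) (fun i => (lay P0 X i).card)) :
    be (Nat.card K) 0 d X.card ≤ hh K V d X := by
  classical
  haveI : Fintype (ℙ K V) := Fintype.ofFinite _
  set q := Nat.card K with hqdef
  set M := Module.finrank K V with hMdef
  obtain ⟨S, hS⟩ := hGL K V
  have hcardV : Fintype.card (ℙ K V) = pp q M := by
    rw [← Nat.card_eq_fintype_card]; exact (hC K V).1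
  have hdc := hDC q M (ℙ K V) S X (by omega) hcardV
  have hfun : ∀ P, S.nn X P = fun i => (lay P X i).card := fun P => funext (hS X P)
  have hrows : ∀ P, Rows q X.card (ind X P) (fun i => (lay P X i).card) := by
    intro P; rw [← hfun P]; exact hdc.1 P
  obtain ⟨_, hdq, _, _, hr1, hr2, hN⟩ := id hPar
  set n0 : ℕ → ℕ := fun i => (lay P0 X i).card with hn0
  set c0 := cc q n0 with hc0
  set x0 := ∑ i ∈ Ico 1 q, xx q (n0 i) with hx0
  have hrow0 := hrows P0
  rw [ind_of_not_mem hP0] at hrow0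
  have hb0 := hbad P0
  rw [ind_of_not_mem hP0] at hb0
  obtain ⟨hv1, hv2, hv3, hv4⟩ := hV1 q d l r X.card 0 n0 hPar hrow0 hb0
  by_contra hcon
  rw [not_le] at hcon
  -- sizes
  have hNN : n0 0 + c0 = X.card := by
    have := hrow0.2.2
    rw [sum_range_eq_cc q (by omega)] at this
    simpa using this
  have hN' : X.card = pp q (l + 2) + r := by
    have := hPp.2.2.1 q (l + 1)
    rw [hN, this]; ring
  obtain ⟨_, _, _, hX4, hX5, hX6, _, _, _, _⟩ := id hXx
  have hx0c0 : x0 ≤ c0 := by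
    apply Finset.sum_le_sum
    intro i _
    exact hX6 q (n0 i) (by omega)
  have hn1 : 1 ≤ n0 1 := by
    by_contra h
    have h' : n0 1 = 0 := by omega
    have hc : c0 = 0 := by
      rw [hc0]; unfold cc
      apply Finset.sum_eq_zero
      intro i hi
      rw [Finset.mem_Ico] at hi
      have hle : n0 i ≤ n0 1 := hrow0.1 hi.1
      have h00 : n0 i = 0 := by omega
      exact h00
    omega
  have hqx : (q - 1) * c0 + 1 ≤ q * x0 := by
    have hmem : 1 ∈ Ico 1 q := by rw [Finset.mem_Ico]; omega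
    have e1 : c0 = n0 1 + ∑ i ∈ (Ico 1 q).erase 1, n0 i := by
      rw [hc0]; unfold cc; rw [Finset.add_sum_erase _ _ hmem]
    have e2 : x0 = xx q (n0 1) + ∑ i ∈ (Ico 1 q).erase 1, xx q (n0 i) := by
      rw [hx0, Finset.add_sum_erase _ (fun i => xx q (n0 i)) hmem]
    have e3 : (q - 1) * ∑ i ∈ (Ico 1 q).erase 1, n0 i ≤
        q * ∑ i ∈ (Ico 1 q).erase 1, xx q (n0 i) := by
      rw [Finset.mul_sum, Finset.mul_sum]
      apply Finset.sum_le_sum
      intro i _
      exact hX5 q (n0 i) (by omega)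
    have e4 := hX4 q (n0 1) (by omega) hn1
    rw [e1, e2, mul_add, mul_add]
    omega
  have hNleP : X.card ≤ pp q M := by
    rw [← hcardV]; exact Finset.card_le_univ X
  have hX1 : 1 ≤ X.card := by omega
  have hcastN : ((pp q M - X.card : ℕ) : ℤ) = (pp q M : ℤ) - X.card := by
    push_cast [Nat.cast_sub hNleP]; ring
  have hcastN1 : ((X.card - 1 : ℕ) : ℤ) = (X.card : ℤ) - 1 := by
    push_cast [Nat.cast_sub hX1]; ring
  have hcastq1 : ((q - 1 : ℕ) : ℤ) = (q : ℤ) - 1 := by
    push_cast [Nat.cast_sub (by omega : 1 ≤ q)]; ring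
  have h1z : 2 * (c0 : ℤ) * ((pp q M : ℤ) - X.card) ≤
      ((q : ℤ) - 1) * X.card * ((X.card : ℤ) - 1) := by
    have := h1
    have h' : ((2 * c0 * (pp q M - X.card) : ℕ) : ℤ) ≤
        (((q - 1) * (X.card * (X.card - 1)) : ℕ) : ℤ) := by exact_mod_cast this
    simp only [Nat.cast_mul, hcastN, hcastN1, hcastq1] at h'
    push_cast at h'
    linarith
  have hIL' := hIL q l r M (X.card : ℤ) (pp q M : ℤ) hq3 hl hM hr1 hr rfl
    (by rw [hN']; push_cast; ring)
  have hPN : (0 : ℤ) < (pp q M : ℤ) - X.card := by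
    rcases lt_or_eq_of_le hNleP with h | h
    · have : (X.card : ℤ) < (pp q M : ℤ) := by exact_mod_cast h
      linarith
    · exfalso
      have e : (X.card : ℤ) = (pp q M : ℤ) := by exact_mod_cast h
      rw [← e] at hIL'
      have : (0 : ℤ) ≤ ((q : ℤ) - 1) * X.card * ((X.card : ℤ) - 1) := by
        apply mul_nonneg
        · apply mul_nonneg
          · have : (1 : ℤ) ≤ q := by exact_mod_cast (by omega : 1 ≤ q)
            linarith
          · positivity
        · have : (1 : ℤ) ≤ X.card := by exact_mod_cast hX1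
          linarith
      simp at hIL'
      linarith
  have hcq : c0 ≤ q ^ l := by
    have : 2 * (c0 : ℤ) * ((pp q M : ℤ) - X.card) <
        2 * ((q : ℤ) ^ l + 1) * ((pp q M : ℤ) - X.card) := lt_of_le_of_lt h1z hIL'
    have h' := lt_of_mul_lt_mul_right this hPN.le
    have h'' : (c0 : ℤ) < (q : ℤ) ^ l + 1 := by linarith
    have h3 : c0 < q ^ l + 1 := by exact_mod_cast h''
    omega
  have hloss : c0 ≤ x0 + q ^ (l - 1) := by
    obtain ⟨l', hl'⟩ : ∃ l', l = l' + 1 := ⟨l - 1, by omega⟩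
    have e1 : q ^ l = q * q ^ (l - 1) := by rw [hl']; simp [pow_succ]; ring
    by_contra hlt
    rw [not_le] at hlt
    have e2 : q * (x0 + q ^ (l - 1) + 1) ≤ q * c0 := Nat.mul_le_mul_left q (by omega)
    have e3 : q * c0 = (q - 1) * c0 + c0 := by
      obtain ⟨q', hq'⟩ : ∃ q', q = q' + 1 := ⟨q - 1, by omega⟩
      rw [hq']; simp; ring
    have e4 : q * (x0 + q ^ (l - 1) + 1) = q * x0 + q * q ^ (l - 1) + q := by ring
    omega
  -- projection from P0
  haveI := finite_quot (K := K) P0.submodule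
  set X' := lay P0 X 0 with hX'
  have hcardX' : X'.card = pp q (l + 2) + r - c0 := by
    have : n0 0 = X'.card := rfl
    omega
  have hfr := (hC K V).2 P0
  have IH1 : ∀ M' < Module.finrank K (V ⧸ P0.submodule), ThM K M' := by
    intro M' hM'
    exact IH M' (by omega)
  have hsmall : hh K (V ⧸ P0.submodule) d X' < al q 0 d (q ^ (l + 1)) + al q 1 d (r - x0) := by
    have e1 := (hPT K V X P0 d).1 hP0
    rw [Finset.range_eq_Ico, Finset.sum_eq_sum_Ico_succ_bot (by omega)] at e1
    have e2 : al q 1 d x0 ≤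
        ∑ i ∈ Ico (0 + 1) (d + 1), hh K (V ⧸ P0.submodule) (d - i) (lay P0 X i) := by
      have f1 : al q 1 d x0 ≤ ∑ i ∈ Ico 1 q, al q i d (xx q (n0 i)) := by
        have g1 : x0 = ∑ i ∈ range (q - 1), xx q (n0 (i + 1)) := by
          rw [hx0, Finset.sum_Ico_eq_sum_range]
          apply Finset.sum_congr rfl
          intro i _
          rw [add_comm]
        have g2 : ∑ i ∈ Ico 1 q, al q i d (xx q (n0 i)) =
            ∑ i ∈ range (q - 1), al q (1 + i) d (xx q (n0 (i + 1))) := by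
          rw [Finset.sum_Ico_eq_sum_range]
          apply Finset.sum_congr rfl
          intro i _
          rw [add_comm i 1]
        rw [g1, g2]
        apply hLAY q (q - 1) 1 d (fun i => xx q (n0 (i + 1))) (by omega) (by omega)
        intro i j hij
        exact hXx.1 q _ _ (by omega) (hrow0.1 (by omega))
      have f2 : ∑ i ∈ Ico 1 q, al q i d (xx q (n0 i)) =
          ∑ i ∈ Ico (0 + 1) (d + 1), al q i d (xx q (n0 i)) := by
        symm
        apply Finset.sum_subset
        · intro i hi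
          rw [Finset.mem_Ico] at hi ⊢
          omega
        · intro i hi hi'
          rw [Finset.mem_Ico] at hi hi'
          exact hAlB.2.2.2.1 q i d _ (by omega)
      rw [f2] at f1
      refine le_trans f1 ?_
      apply Finset.sum_le_sum
      intro i hi
      rw [Finset.mem_Ico] at hi
      refine le_trans (hBeX1 q i d (n0 i) (by omega) (by omega)) ?_
      rw [hBe.2.2.2.2.1 q i d (n0 i) (by omega)]
      exact IH _ (by omega) (V ⧸ P0.submodule) (d - i) (lay P0 X i) rfl (by omega)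
    have e3 : be q 0 d X.card = al q 0 d (q ^ (l + 1)) + al q 1 d r := by
      have := (hCan q d l 1 r (by omega) hdq le_rfl (by omega) hr2).1
      rw [hN, this]
      congr 2
      simp
    have e4 : al q 1 d r ≤ al q 1 d (r - x0) + al q 1 d x0 := by
      have := hAlSub q 1 d (r - x0) x0 (by omega)
      rwa [Nat.sub_add_cancel (by omega)] at this
    rw [e3] at hcon
    simp only [Nat.sub_zero] at e1
    have e5 : hh K (V ⧸ P0.submodule) d (lay P0 X 0) = hh K (V ⧸ P0.submodule) d X' := rfl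
    rw [e5] at e1
    omega
  haveI : Fintype (ℙ K (V ⧸ P0.submodule)) := Fintype.ofFinite _
  obtain ⟨S', hS'⟩ := hGL K (V ⧸ P0.submodule)
  have hcardV' : Fintype.card (ℙ K (V ⧸ P0.submodule)) = pp q (M - 1) := by
    rw [← Nat.card_eq_fintype_card, (hC K (V ⧸ P0.submodule)).1]
    congr 1
    omega
  have hdc' := hDC q (M - 1) (ℙ K (V ⧸ P0.submodule)) S' X' (by omega) hcardV'
  have hfun' : ∀ Q, S'.nn X' Q = fun i => (lay Q X' i).card := fun Q => funext (hS' X' Q)
  have hrows' : ∀ Q, Rows q X'.card (ind X' Q) (fun i => (lay Q X' i).card) := by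
    intro Q; rw [← hfun' Q]; exact hdc'.1 Q
  have hall : ∀ Q : ℙ K (V ⧸ P0.submodule),
      (q - 1) * cc q (fun i => (lay Q X' i).card) ≤ q * (r - x0 - 1) := by
    intro Q
    have htot := good_hh hBe hPT hC K (V ⧸ P0.submodule) IH1 d hdq X' Q
    have hlt := lt_of_le_of_lt htot hsmall
    have hrQ := hrows' Q
    rw [hcardX'] at hrQ
    rcases hV4 q d l r c0 x0 (ind X' Q) (fun i => (lay Q X' i).card) hq3 hd2 hdq hl hr hv1 hx0c0
      hloss hrQ hlt with h | h
    · exact h
    · exfalso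
      obtain ⟨P1, hP1⟩ := hCone K V X P0 Q
      have hg := hV5 q d l r X.card (ind X P1) (fun i => (lay P1 X i).card) hq3 hd2 hl hPar hr
        (hrows P1) (by
          have t1 : (q - 1) * (pp q (l + 1) + 1) ≤
              (q - 1) * ((lay Q X' (q - 1)).card + (c0 - x0)) := Nat.mul_le_mul_left _ h
          have t2 : (q - 1) * (c0 - x0) ≤ (q - 1) * q ^ (l - 1) :=
            Nat.mul_le_mul_left _ (by omega)
          rw [Nat.mul_add (q - 1) (lay Q X' (q - 1)).card] at t1
          have t3 : (q - 1) * (lay Q X' (q - 1)).card ≤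
            q * cc q (fun i => (lay P1 X i).card) := hP1
          omega)
      exact absurd (hbad P1) (not_lt.mpr hg)
  -- sum over Q
  have hsum : (q - 1) * ((q - 1) * (X'.card * (X'.card - 1))) ≤
      pp q (M - 1) * (q * (q * (r - x0 - 1))) := by
    rw [← hdc'.2.2.2, Finset.mul_sum, ← hcardV', ← smul_eq_mul, ← Finset.card_univ,
      ← Finset.sum_const]
    apply Finset.sum_le_sum
    intro Q _
    have e1 := cheb q (S'.nn X' Q) (hdc'.1 Q).1
    have e2 := hall Q
    rw [← hfun' Q] at e2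
    calc (q - 1) * ∑ i ∈ Ico 1 q, 2 * i * S'.nn X' Q i ≤ (q - 1) * (q * cc q (S'.nn X' Q)) :=
          Nat.mul_le_mul_left _ e1
      _ = q * ((q - 1) * cc q (S'.nn X' Q)) := by ring
      _ ≤ q * (q * (r - x0 - 1)) := Nat.mul_le_mul_left _ e2
  have hc0N : c0 + 1 ≤ X.card := by
    have : 1 ≤ n0 0 := by
      have := hrow0.1 (Nat.zero_le 1)
      omega
    omega
  have hII' := hII q l r M c0 (X.card : ℤ) (pp q M : ℤ) (pp q (M - 1) : ℤ) hq3 hl hM hr1 hr rfl rfl
    (by rw [hN']; push_cast; ring) (by linarith [h1z]) h2 hv2 h4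
  -- final contradiction
  have hX'1 : 1 ≤ X'.card := by
    have : n0 0 = X'.card := rfl
    omega
  have hsumz : ((q : ℤ) - 1) * (((q : ℤ) - 1) * ((X'.card : ℤ) * ((X'.card : ℤ) - 1))) ≤
      (pp q (M - 1) : ℤ) * (q * (q * ((r : ℤ) - x0 - 1))) := by
    have h' : (((q - 1) * ((q - 1) * (X'.card * (X'.card - 1))) : ℕ) : ℤ) ≤
        ((pp q (M - 1) * (q * (q * (r - x0 - 1))) : ℕ) : ℤ) := by exact_mod_cast hsum
    have a1 : ((X'.card - 1 : ℕ) : ℤ) = (X'.card : ℤ) - 1 := by
      push_cast [Nat.cast_sub hX'1]; ring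
    have a2 : ((r - x0 - 1 : ℕ) : ℤ) = (r : ℤ) - x0 - 1 := by omega
    rw [Nat.cast_mul, Nat.cast_mul, Nat.cast_mul, a1, hcastq1, Nat.cast_mul, Nat.cast_mul,
      Nat.cast_mul, a2] at h'
    exact h'
  have hX'z : (X'.card : ℤ) = (X.card : ℤ) - c0 := by
    have : n0 0 = X'.card := rfl
    omega
  rw [hX'z] at hsumz
  have hqxz : ((q : ℤ) - 1) * c0 + 1 ≤ q * x0 := by
    have h' : (((q - 1) * c0 + 1 : ℕ) : ℤ) ≤ ((q * x0 : ℕ) : ℤ) := by exact_mod_cast hqx
    rw [Nat.cast_add, Nat.cast_mul, hcastq1, Nat.cast_mul] at h'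
    simpa using h'
  have hfin : (pp q (M - 1) : ℤ) * (q * (q * ((r : ℤ) - x0 - 1))) ≤
      q * (pp q (M - 1) : ℤ) * (q * r - ((q : ℤ) - 1) * c0 - q - 1) := by
    have : (q : ℤ) * ((r : ℤ) - x0 - 1) ≤ q * r - ((q : ℤ) - 1) * c0 - q - 1 := by linarith
    have hpos : (0 : ℤ) ≤ q * (pp q (M - 1) : ℤ) := by positivity
    calc (pp q (M - 1) : ℤ) * (q * (q * ((r : ℤ) - x0 - 1))) =
          q * (pp q (M - 1) : ℤ) * (q * ((r : ℤ) - x0 - 1)) := by ring
      _ ≤ _ := mul_le_mul_of_nonneg_left this hpos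
  have hlast : ((q : ℤ) - 1) * (((q : ℤ) - 1) * (((X.card : ℤ) - c0) * ((X.card : ℤ) - c0 - 1))) =
      ((q : ℤ) - 1) ^ 2 * ((X.card : ℤ) - c0) * ((X.card : ℤ) - c0 - 1) := by ring
  rw [hlast] at hsumz
  linarith

end Pool.Agent.W477.ER
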