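import Pool.Agent.W477.ER.Asm

/-!
# Assembly of the main theorem Th, second part
-/

set_option autoImplicit false

namespace Pool.Agent.W477.ER

open Finset
open scoped LinearAlgebra.Projectivization

/-- the case of a canonical size -/
theorem canCase (hLAY : LAY) (hAlB : AlBasic) (hAlSub : AlSub) (hPp : PpBasic) (hBe : BeBasic)
    (hXx : XxBasic) (hBeX1 : BeX1) (hCan : BeCan) (hV1 : V1) (hV4 : V4) (hV5 : V5)
    (hIL : IneqL) (hII : IneqI) (hDC : DC) (hN1 : N1) (hN2 : N2) (hN3 : N3)
    (hPT : PT) (hGL : GeoLin) (hC : CardP) (hCone : Cone)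
    (K : Type) [Field K] [Finite K] (V : Type) [AddCommGroup V] [Module K V] [Finite V]
    (IH : ∀ M' < Module.finrank K V, ThM K M') (d l v r : ℕ)
    (X : Finset (ℙ K V)) (hPar : Par (Nat.card K) d l v r X.card) :
    be (Nat.card K) 0 d X.card ≤ hh K V d X := by
  classical
  haveI : Fintype (ℙ K V) := Fintype.ofFinite _
  obtain ⟨S, hS⟩ := hGL K V
  obtain ⟨hq2, hdq, hv1, hvd, hr1, hr2, hN⟩ := id hPar
  have hcardV : Fintype.card (ℙ K V) = pp (Nat.card K) (Module.finrank K V) := by
    rw [← Nat.card_eq_fintype_card]; exact (hC K V).1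
  have hdc := hDC (Nat.card K) (Module.finrank K V) (ℙ K V) S X hq2 hcardV
  have hfun : ∀ P, S.nn X P = fun i => (lay P X i).card := fun P => funext (hS X P)
  have hrows : ∀ P, Rows (Nat.card K) X.card (ind X P) (fun i => (lay P X i).card) := by
    intro P; rw [← hfun P]; exact hdc.1 P
  have hgood : ∀ P, S.Good d X P → be (Nat.card K) 0 d X.card ≤ hh K V d X := by
    intro P hP
    unfold LinSp.Good at hP
    rw [hfun P] at hP
    exact le_trans hP (good_hh hBe hPT hC K V IH d hdq X P)
  by_cases hex : ∃ P, S.Good d X P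
  · obtain ⟨P, hP⟩ := hex
    exact hgood P hP
  have hbad : ∀ P : ℙ K V, tot (Nat.card K) d (ind X P) (fun i => (lay P X i).card) <
      be (Nat.card K) 0 d X.card := by
    intro P
    rw [← hfun P]
    by_contra h
    exact hex ⟨P, not_lt.mp h⟩
  have hNX : X.card ≤ pp (Nat.card K) (Module.finrank K V) := by
    rw [← hcardV]; exact Finset.card_le_univ X
  have hNbig : pp (Nat.card K) (l + 2) < X.card := by
    have e1 : pp (Nat.card K) (l + 2) = pp (Nat.card K) (l + 1) + Nat.card K ^ (l + 1) :=
      hPp.2.2.1 (Nat.card K) (l + 1)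
    have e2 : Nat.card K ^ (l + 1) ≤ v * Nat.card K ^ (l + 1) := Nat.le_mul_of_pos_left _ hv1
    omega
  have hM3 : l + 3 ≤ Module.finrank K V := by
    by_contra h
    have := hPp.2.2.2.2.2 (Nat.card K) (Module.finrank K V) (l + 2) (by omega)
    omega
  by_cases hd1 : d = 1
  · -- d = 1
    exfalso
    have hv : v = 1 := by omega
    subst hv
    subst hd1
    have hr : r = 1 := by simp at hr2; omega
    subst hr
    have hX1 : 0 < X.card := by omega
    obtain ⟨P, hP⟩ := Finset.card_pos.mp hX1
    have h1 := hV1 (Nat.card K) 1 l 1 X.card (ind X P) (fun i => (lay P X i).card) hPar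
      (hrows P) (hbad P)
    obtain ⟨_, hb, hc, _⟩ := h1
    rw [ind_of_mem hP] at hc
    have hc0 : cc (Nat.card K) (fun i => (lay P X i).card) = 0 := by
      simp only [Nat.sub_self, Nat.mul_zero, Nat.le_zero, Nat.mul_eq_zero] at hb
      rcases hb with hb | hb
      · omega
      · exact hb
    have h1le : (lay P X 1).card ≤ cc (Nat.card K) (fun i => (lay P X i).card) := by
      unfold cc
      exact Finset.single_le_sum (f := fun i => (lay P X i).card)
        (fun i _ => Nat.zero_le _) (by rw [Finset.mem_Ico]; omega)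
    have hc' : 1 + 1 ≤ cc (Nat.card K) (fun i => (lay P X i).card) + (lay P X 1).card + 1 := hc
    omega
  have hq3 : 3 ≤ Nat.card K := by omega
  by_cases hM : Module.finrank K V = l + 3
  · exfalso
    apply hex
    exact hN1 (Nat.card K) d l v r (ℙ K V) S X hq3 (by rw [hcardV, hM]) hPar
  by_cases hv : v = 1
  · subst hv
    rcases hN3 (Nat.card K) d l r (Module.finrank K V) (ℙ K V) S X hq3 (by omega) (by omega)
      hcardV hPar with h | ⟨hl, hrl, P0, hP0, h1, h2, _, h4⟩
    · exact absurd h hex
    · rw [hfun P0] at h1 h2 h4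
      exact special hLAY hAlB hAlSub hPp hBe hXx hBeX1 hCan hV1 hV4 hV5 hIL hII hDC hPT hGL hC
        hCone K V IH d l r X hq3 (by omega) hl (by omega) hPar hrl hbad P0 hP0 h1 h2 h4
  · exfalso
    apply hex
    exact hN2 (Nat.card K) d l v r (Module.finrank K V) (ℙ K V) S X hq3 (by omega) hcardV
      (by omega) hPar

/-- the main theorem from its pieces -/
theorem th_of (hLAY : LAY) (hAlB : AlBasic) (hAlSub : AlSub) (hPp : PpBasic) (hBe : BeBasic)
    (hXx : XxBasic) (hBeX1 : BeX1) (hCan : BeCan) (hCanon : Canon) (hSmall : Small)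
    (hV1 : V1) (hV4 : V4) (hV5 : V5)
    (hIL : IneqL) (hII : IneqI) (hDC : DC) (hN1 : N1) (hN2 : N2) (hN3 : N3)
    (hPT : PT) (hGL : GeoLin) (hC : CardP) (hHh : HhBasic) (hCone : Cone) : Th := by
  classical
  have key : ∀ (K : Type) [Field K] [Finite K] (M : ℕ), ThM K M := by
    intro K _ _ M
    induction M using Nat.strong_induction_on with
    | _ M ih =>
      intro V _ _ _ d X hfr hdq
      have IH : ∀ M' < Module.finrank K V, ThM K M' := by
        intro M' hM'
        exact ih M' (by omega)
      have hq2 : 2 ≤ Nat.card K := Finite.one_lt_card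
      rcases Finset.eq_empty_or_nonempty X with hX | hX
      · subst hX
        rw [Finset.card_empty, hBe.2.2.2.2.2.2.2.1]
        exact Nat.zero_le _
      obtain ⟨P, hP⟩ := hX
      haveI : Fintype (ℙ K V) := Fintype.ofFinite _
      obtain ⟨S, hS⟩ := hGL K V
      have hcardV : Fintype.card (ℙ K V) = pp (Nat.card K) (Module.finrank K V) := by
        rw [← Nat.card_eq_fintype_card]; exact (hC K V).1
      have hdc := hDC (Nat.card K) (Module.finrank K V) (ℙ K V) S X hq2 hcardV
      have hrow := hdc.1 P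
      have hfun : S.nn X P = fun i => (lay P X i).card := funext (hS X P)
      rw [hfun, ind_of_mem hP] at hrow
      have hgh := good_hh hBe hPT hC K V IH d hdq X P
      rw [ind_of_mem hP] at hgh
      have hX1 : 1 ≤ X.card := Finset.card_pos.mpr ⟨P, hP⟩
      by_cases hN : X.card ≤ Nat.card K + 1
      · exact le_trans (hSmall (Nat.card K) d X.card _ hq2 hdq hX1 hN hrow) hgh
      by_cases hd0 : d = 0
      · subst hd0
        refine le_trans (hBe.2.2.2.2.2.2.1 (Nat.card K) 0 X.card) (le_trans ?_ hgh)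
        unfold tot
        rw [if_neg (by norm_num)]
        omega
      obtain ⟨l, v, r, hv1, hvd, hr1, hr2, hle, heq⟩ :=
        hCanon (Nat.card K) d X.card hq2 (by omega) hdq (by omega)
      obtain ⟨Y, hYX, hYc⟩ := Finset.exists_subset_card_eq hle
      rw [heq, ← hYc]
      refine le_trans ?_ (hHh K V d Y X hYX)
      exact canCase hLAY hAlB hAlSub hPp hBe hXx hBeX1 hCan hV1 hV4 hV5 hIL hII hDC hN1 hN2 hN3
        hPT hGL hC hCone K V IH d l v r Y ⟨hq2, hdq, hv1, hvd, hr1, hr2, hYc⟩
  intro K _ _ V _ _ _ d X hdq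
  exact key K _ V d X rfl hdq

end Pool.Agent.W477.ER
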