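import Mathlib

/-!
# Definitions for the project ER (e_r = L_r, projective Reed-Muller codes)

q is the order of the finite field; all degrees are at most q - 1.
`al q i e n` is the number of k < n whose base q digit sum is at most e - i (zero if i > e).
`be q i e n` is the projective analogue.
-/

set_option autoImplicit false

namespace Pool.Agent.W477.ER

open Finset

/-- base q digit sum -/
def ds (q k : ℕ) : ℕ := (Nat.digits q k).sum

/-- number of k < n with i + (digit sum of k) ≤ e -/
def al (q i e n : ℕ) : ℕ := ((range n).filter (fun k => i + ds q k ≤ e)).card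

/-- number of points of the projective space of (vector space) dimension n -/
def pp (q n : ℕ) : ℕ := ∑ i ∈ range n, q ^ i

/-- projective degree of the k-th point; the points pp q m, ..., pp q (m+1) - 1 form an affine
block with degrees 1 + digit sum; the very first point has degree 0 -/
def dl (q k : ℕ) : ℕ := if k = 0 then 0 else 1 + ds q (k - pp q (Nat.log q ((q - 1) * k + 1)))

/-- number of k < n with i + dl q k ≤ e -/
def be (q i e n : ℕ) : ℕ := ((range n).filter (fun k => i + dl q k ≤ e)).card

/-- sum of all floors x / q^k, k ≥ 1 -/
def gg (q x : ℕ) : ℕ := ∑ k ∈ range x, x / q ^ (k + 1)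

/-- the affine size to which a projective size n is compared -/
def xx (q n : ℕ) : ℕ :=
  min (n - pp q (Nat.log q ((q - 1) * n + 1) - 1)) (q ^ (Nat.log q ((q - 1) * n + 1)))

/-- value of the layering bound at a point: w = 1 if the point belongs to X and w = 0 otherwise,
n i = number of lines through the point containing more than i further points of X -/
def tot (q d w : ℕ) (n : ℕ → ℕ) : ℕ :=
  if w = 0 then ∑ i ∈ range q, be q i d (n i) else 1 + ∑ i ∈ range d, be q i d (n i)

/-- sum of the rows 1, ..., q - 1 -/
def cc (q : ℕ) (n : ℕ → ℕ) : ℕ := ∑ i ∈ Ico 1 q, n i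

/-- a finite linear space all of whose lines have q + 1 points -/
structure LinSp (q : ℕ) (α : Type) where
  lines : Finset (Finset α)
  card_line : ∀ L ∈ lines, L.card = q + 1
  exists_line : ∀ x y : α, x ≠ y → ∃ L ∈ lines, x ∈ L ∧ y ∈ L
  unique_line : ∀ x y : α, x ≠ y → ∀ L ∈ lines, ∀ L' ∈ lines,
    x ∈ L → y ∈ L → x ∈ L' → y ∈ L' → L = L'

open Classical in
/-- number of lines through P with more than i points of X other than P -/
noncomputable def LinSp.nn {q : ℕ} {α : Type} (S : LinSp q α) (X : Finset α) (P : α)
    (i : ℕ) : ℕ :=
  (S.lines.filter (fun L => P ∈ L ∧ i < (L.filter (fun x => x ∈ X ∧ x ≠ P)).card)).card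

open Classical in
/-- 1 if P belongs to X and 0 otherwise -/
noncomputable def ind {α : Type} (X : Finset α) (P : α) : ℕ := if P ∈ X then 1 else 0

/-- P is good for X: the layering bound at P already gives the theorem -/
def LinSp.Good {q : ℕ} {α : Type} (S : LinSp q α) (d : ℕ) (X : Finset α) (P : α) : Prop :=
  be q 0 d X.card ≤ tot q d (ind X P) (S.nn X P)

section Geo

open scoped LinearAlgebra.Projectivization

variable (K : Type) [Field K] (V : Type) [AddCommGroup V] [Module K V]

/-- functions on V spanned by products of d linear forms -/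
def Sd (d : ℕ) : Submodule K (V → K) :=
  Submodule.span K (Set.range (fun l : Fin d → Module.Dual K V => fun v : V => ∏ i, l i v))

/-- restriction of functions on V to the representatives of a finite set of points -/
noncomputable def resP (X : Finset (ℙ K V)) : (V → K) →ₗ[K] (X → K) where
  toFun f := fun x => f x.1.rep
  map_add' _ _ := rfl
  map_smul' _ _ := rfl

/-- the Hilbert function of a finite set of points -/
noncomputable def hh (d : ℕ) (X : Finset (ℙ K V)) : ℕ :=
  Module.finrank K ((Sd K V d).map (resP K V X))

variable {K V}

/-- the point x, different from P, is projected from P to the point y -/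
def Over (P : ℙ K V) (x : ℙ K V) (y : ℙ K (V ⧸ P.submodule)) : Prop :=
  ∃ h : P.submodule.mkQ x.rep ≠ 0, Projectivization.mk K (P.submodule.mkQ x.rep) h = y

open Classical in
/-- the points y of the projection from P over which there are more than i points of X -/
noncomputable def lay (P : ℙ K V) (X : Finset (ℙ K V)) (i : ℕ) :
    Finset (ℙ K (V ⧸ P.submodule)) :=
  (Set.Finite.toFinset (s := {y : ℙ K (V ⧸ P.submodule) | i < (X.filter (fun x => Over P x y)).card})
    (by
      classical
      have h2 : ∀ y ∈ {y : ℙ K (V ⧸ P.submodule) | i < (X.filter (fun x => Over P x y)).card},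
          ∃ x ∈ X, Over P x y := by
        intro y hy
        have h3 : 0 < (X.filter (fun x => Over P x y)).card := lt_of_le_of_lt (Nat.zero_le _) hy
        obtain ⟨x, hx⟩ := Finset.card_pos.mp h3
        rw [Finset.mem_filter] at hx
        exact ⟨x, hx.1, hx.2⟩
      have h4 : (⋃ x ∈ X, {y : ℙ K (V ⧸ P.submodule) | Over P x y}).Finite := by
        apply Set.Finite.biUnion (Finset.finite_toSet X)
        intro x _
        apply Set.Subsingleton.finite
        intro y1 hy1 y2 hy2
        obtain ⟨h1, e1⟩ := hy1
        obtain ⟨h2', e2⟩ := hy2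
        exact e1.symm.trans e2
      apply h4.subset
      intro y hy
      obtain ⟨x, hx, hxy⟩ := h2 y hy
      exact Set.mem_biUnion (s := (X : Set (ℙ K V))) hx hxy))

open Classical in
theorem mem_lay {P : ℙ K V} {X : Finset (ℙ K V)} {i : ℕ} {y : ℙ K (V ⧸ P.submodule)} :
    y ∈ lay P X i ↔ i < (X.filter (fun x => Over P x y)).card := by
  unfold lay
  rw [Set.Finite.mem_toFinset]
  rfl

end Geo

end Pool.Agent.W477.ER
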