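import Pool.Agent.W477.ER.Defs

/-!
# The exact statements of the pieces of the project ER
-/

set_option autoImplicit false

namespace Pool.Agent.W477.ER

open Finset

/-! ### Clements-Lindstroem part -/

/-- 2D Clements-Lindstroem in a k1 x k2 box, k1 ≤ k2 -/
def CL0 : Prop := ∀ (k1 k2 e : ℕ) (x : ℕ → ℕ), k1 ≤ k2 → Antitone x → x 0 ≤ k2 →
  ((range (∑ i ∈ range k1, x i)).filter (fun t => t / k2 + t % k2 ≤ e)).card ≤
    ∑ i ∈ range k1, ((range (x i)).filter (fun t => i + t ≤ e)).card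

/-- Clements-Lindstroem in the box k1 x k2 x q^n, k1 ≤ k2 ≤ q -/
def CL : Prop := ∀ (q n k1 k2 e : ℕ) (x : ℕ → ℕ), 2 ≤ q → k1 ≤ k2 → k2 ≤ q → Antitone x →
  x 0 ≤ k2 * q ^ n →
  ((range (∑ i ∈ range k1, x i)).filter
      (fun t => t / (k2 * q ^ n) + ds q (t % (k2 * q ^ n)) ≤ e)).card ≤
    ∑ i ∈ range k1, al q i e (x i)

/-- layers: at most q antitone rows with consecutive offsets -/
def LAY : Prop := ∀ (q R a e : ℕ) (x : ℕ → ℕ), 2 ≤ q → R ≤ q → Antitone x →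
  al q a e (∑ i ∈ range R, x i) ≤ ∑ i ∈ range R, al q (a + i) e (x i)

/-! ### basic facts on al -/

def AlBasic : Prop :=
  (∀ q a e x y : ℕ, x ≤ y → al q a e x ≤ al q a e y) ∧
  (∀ q a b e x : ℕ, a ≤ b → al q b e x ≤ al q a e x) ∧
  (∀ q a e x : ℕ, al q a e (x + 1) ≤ al q a e x + 1) ∧
  (∀ q a e x : ℕ, e < a → al q a e x = 0) ∧
  (∀ q a e x : ℕ, a ≤ e → al q a e x = al q 0 (e - a) x) ∧
  (∀ q a e x : ℕ, a ≤ e → 1 ≤ x → 1 ≤ al q a e x) ∧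
  (∀ q e x : ℕ, 2 ≤ q → 1 ≤ x → al q e e x = 1)

/-- splitting by the leading digit -/
def AlSplit : Prop := ∀ q a e n c x : ℕ, 2 ≤ q → c < q → x ≤ q ^ n →
  al q a e (c * q ^ n + x) = ∑ i ∈ range c, al q (a + i) e (q ^ n) + al q (a + c) e x

def AlPow : Prop := ∀ q a e n : ℕ, 2 ≤ q → e < a + q →
  al q a e (q ^ (n + 1)) = al q a e (q ^ n) + al q (a + 1) e (q ^ (n + 1))

/-- saturation -/
def AlSat : Prop := ∀ q a e n x : ℕ, 2 ≤ q → a ≤ e → e < a + q → (e - a) * q ^ n + 1 ≤ x →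
  x ≤ q ^ (n + 1) → al q a e x = al q a e (q ^ (n + 1))

/-- adding one to the leading digit -/
def AlShift : Prop := ∀ q a e n z : ℕ, 2 ≤ q → z ≤ (q - 1) * q ^ n →
  al q a e (q ^ n + z) = al q a e (q ^ n) + al q (a + 1) e z

def AlL2 : Prop := ∀ q a e x y : ℕ, 2 ≤ q → y ≤ x →
  al q a e (x + y) ≤ al q a e x + al q (a + 1) e y

def AlSub : Prop := ∀ q a e x y : ℕ, 2 ≤ q →
  al q a e (x + y) ≤ al q a e x + al q a e y

def AlDrop : Prop := ∀ q a e x : ℕ, 2 ≤ q → e < a + q →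
  al q (a + 1) e x + al q a e (x / q) ≤ al q a e x

def AlW : Prop := ∀ q a e x y : ℕ, 2 ≤ q → e < a + q → x ≤ y →
  al q a e (x + y + gg q x) ≤ al q a e x + al q a e y

def GgBasic : Prop :=
  (∀ q x : ℕ, 2 ≤ q → (q - 1) * gg q x + ds q x = x) ∧
  (∀ q x : ℕ, 2 ≤ q → gg q x = x / q + gg q (x / q)) ∧
  (∀ q n : ℕ, 2 ≤ q → gg q (q ^ n) = pp q n) ∧
  (∀ q x y : ℕ, 2 ≤ q → gg q x + gg q y ≤ gg q (x + y)) ∧
  (∀ q x y : ℕ, 2 ≤ q → x ≤ y → gg q x ≤ gg q y)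

/-! ### basic facts on pp, be, xx -/

def PpBasic : Prop :=
  (∀ q : ℕ, pp q 0 = 0) ∧ (∀ q : ℕ, pp q 1 = 1) ∧
  (∀ q n : ℕ, pp q (n + 1) = pp q n + q ^ n) ∧
  (∀ q n : ℕ, pp q (n + 1) = q * pp q n + 1) ∧
  (∀ q n : ℕ, 2 ≤ q → (q - 1) * pp q n + 1 = q ^ n) ∧
  (∀ q m n : ℕ, m ≤ n → pp q m ≤ pp q n)

def BeBasic : Prop :=
  (∀ q i e x y : ℕ, x ≤ y → be q i e x ≤ be q i e y) ∧
  (∀ q i j e x : ℕ, i ≤ j → be q j e x ≤ be q i e x) ∧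
  (∀ q i e x : ℕ, be q i e (x + 1) ≤ be q i e x + 1) ∧
  (∀ q i e x : ℕ, e < i → be q i e x = 0) ∧
  (∀ q i e x : ℕ, i ≤ e → be q i e x = be q 0 (e - i) x) ∧
  (∀ q i e x : ℕ, i ≤ e → 1 ≤ x → 1 ≤ be q i e x) ∧
  (∀ q e x : ℕ, be q e e x ≤ 1) ∧
  (∀ q i e : ℕ, be q i e 0 = 0) ∧
  (∀ q i e x : ℕ, 2 ≤ q → x ≤ q + 1 → be q i e x = min x (e + 1 - i))

/-- one block -/
def BeBlock : Prop := ∀ q i e n x : ℕ, 2 ≤ q → x ≤ q ^ (n + 1) →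
  be q i e (pp q (n + 1) + x) = be q i e (pp q (n + 1)) + al q (i + 1) e x

def BePP : Prop := ∀ q i e n : ℕ, 2 ≤ q → e < i + q → be q i e (pp q (n + 1)) = al q i e (q ^ n)

def BeShift : Prop := ∀ q i e n : ℕ, 2 ≤ q → e < i + q → al q (i + 1) e n ≤ be q i e n

def BeSat : Prop := ∀ q i e n x : ℕ, 2 ≤ q → i ≤ e → e < i + q →
  (e - i) * q ^ n + pp q n + 1 ≤ x → al q i e (q ^ (n + 1)) ≤ be q i e x

def BeX1 : Prop := ∀ q i e n : ℕ, 2 ≤ q → e < i + q → al q i e (xx q n) ≤ be q i e n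

def XxBasic : Prop :=
  (∀ q x y : ℕ, 2 ≤ q → x ≤ y → xx q x ≤ xx q y) ∧
  (∀ q : ℕ, 2 ≤ q → xx q 0 = 0) ∧
  (∀ q n : ℕ, 2 ≤ q → n ≤ q → xx q n = n) ∧
  (∀ q n : ℕ, 2 ≤ q → 1 ≤ n → (q - 1) * n + 1 ≤ q * xx q n) ∧
  (∀ q n : ℕ, 2 ≤ q → (q - 1) * n ≤ q * xx q n) ∧
  (∀ q n : ℕ, 2 ≤ q → xx q n ≤ n) ∧
  (∀ q n : ℕ, 2 ≤ q → n ≤ xx q n + gg q (xx q n)) ∧
  (∀ q n m : ℕ, 2 ≤ q → n ≤ q ^ (m + 1) + pp q m → n ≤ xx q n + pp q m) ∧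
  (∀ q n m : ℕ, 2 ≤ q → q ^ (m + 1) + pp q m ≤ n → q ^ (m + 1) ≤ xx q n) ∧
  (∀ q n m : ℕ, 2 ≤ q → n < pp q (m + 2) → n - xx q n ≤ max (pp q m) (n - q ^ (m + 1)))

/-- canonical sizes -/
def BeCan : Prop := ∀ q d l v r : ℕ, 2 ≤ q → d < q → 1 ≤ v → v ≤ d → r ≤ (d - v) * q ^ l + 1 →
  be q 0 d (v * q ^ (l + 1) + pp q (l + 1) + r) =
    al q 0 d (q ^ (l + 1)) + al q 1 d ((v - 1) * q ^ (l + 1) + r) ∧
  be q 0 d (v * q ^ (l + 1) + pp q (l + 1) + r) =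
    ∑ i ∈ range v, al q i d (q ^ (l + 1)) + al q v d r

/-- reduction to canonical sizes -/
def Canon : Prop := ∀ q d N : ℕ, 2 ≤ q → 1 ≤ d → d < q → q + 1 < N →
  ∃ l v r : ℕ, 1 ≤ v ∧ v ≤ d ∧ 1 ≤ r ∧ r ≤ (d - v) * q ^ l + 1 ∧
    v * q ^ (l + 1) + pp q (l + 1) + r ≤ N ∧
    be q 0 d N = be q 0 d (v * q ^ (l + 1) + pp q (l + 1) + r)

/-! ### numeric layering lemmas -/

def LemA : Prop := ∀ (q R e l Y : ℕ) (x : ℕ → ℕ), 2 ≤ q → R ≤ q → e + 1 ≤ R → Antitone x →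
  x 0 ≤ e * q ^ l → R * q ^ l + Y ≤ ∑ i ∈ range R, x i →
  al q 0 e (q ^ (l + 1)) + al q 1 e Y ≤ ∑ i ∈ range R, al q i e (x i)

/-- a row vector: q antitone rows of total size N - w -/
def Rows (q N w : ℕ) (n : ℕ → ℕ) : Prop :=
  Antitone n ∧ w ≤ 1 ∧ ∑ i ∈ range q, n i + w = N

/-- canonical parameters -/
def Par (q d l v r N : ℕ) : Prop :=
  2 ≤ q ∧ d < q ∧ 1 ≤ v ∧ v ≤ d ∧ 1 ≤ r ∧ r ≤ (d - v) * q ^ l + 1 ∧
    N = v * q ^ (l + 1) + pp q (l + 1) + r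

/-- the trivial range -/
def Small : Prop := ∀ (q d N : ℕ) (n : ℕ → ℕ), 2 ≤ q → d < q → 1 ≤ N → N ≤ q + 1 →
  Rows q N 1 n → be q 0 d N ≤ tot q d 1 n

/-- tot dominates the sum of all be -/
def TotGe : Prop := ∀ (q d w : ℕ) (n : ℕ → ℕ), 2 ≤ q → d < q → w ≤ 1 →
  ∑ i ∈ range q, be q i d (n i) ≤ tot q d w n

def U : Prop := ∀ (q d l v r N w : ℕ) (n : ℕ → ℕ), Par q d l v r N → Rows q N w n →
  (v = 1 ∨ n 0 ≤ pp q (l + 2)) → (∃ i, i < v ∧ n i ≤ (d - i) * q ^ l + pp q l) →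
  be q 0 d N ≤ ∑ i ∈ range q, be q i d (n i)

def SatD : Prop := ∀ (q d l r N : ℕ) (n : ℕ → ℕ), Par q d l d r N → Rows q N 1 n →
  n 0 ≤ pp q (l + 2) → be q 0 d N ≤ tot q d 1 n

def SatOut : Prop := ∀ (q d l v r N : ℕ) (n : ℕ → ℕ), Par q d l v r N → Rows q N 0 n →
  n 0 ≤ pp q (l + 2) → tot q d 0 n < be q 0 d N →
  q * (∑ i ∈ range v, (pp q (l + 2) - n i)) + q ≤
    q * ((v - 1) * pp q (l + 1) + pp q l) + ∑ i ∈ Ico (v + 1) q, n i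

def SatIn : Prop := ∀ (q d l v r N : ℕ) (n : ℕ → ℕ), Par q d l v r N → Rows q N 1 n →
  n 0 ≤ pp q (l + 2) → tot q d 1 n < be q 0 d N →
  q * (∑ i ∈ range v, (pp q (l + 2) - n i)) ≤
    q * ((v - 1) * pp q (l + 1)) + ∑ i ∈ Ico v q, n i

/-- a large first row is good -/
def C1 : Prop := ∀ (q d l v r N w : ℕ) (n : ℕ → ℕ), Par q d l v r N → Rows q N w n →
  pp q (l + 2) + n 1 ≤ n 0 → be q 0 d N ≤ tot q d w n

/-- q = 3, v = d = 2 : every point of X is good -/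
def Q3 : Prop := ∀ (l N : ℕ) (n : ℕ → ℕ), N = 2 * 3 ^ (l + 1) + pp 3 (l + 1) + 1 →
  Rows 3 N 1 n → be 3 0 2 N ≤ tot 3 2 1 n

def V1 : Prop := ∀ (q d l r N w : ℕ) (n : ℕ → ℕ), Par q d l 1 r N → Rows q N w n →
  tot q d w n < be q 0 d N →
  ∑ i ∈ Ico 1 q, xx q (n i) + 1 ≤ r ∧ (q - 1) * cc q n ≤ q * (r - 1) ∧
    r + 1 ≤ cc q n + n 1 + w ∧ d * q ^ l + pp q l < n 0

def V2 : Prop := ∀ (q d l r N : ℕ) (n : ℕ → ℕ), 3 ≤ q → Par q d l 1 r N → Rows q N 0 n →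
  tot q d 0 n < be q 0 d N → 1 ≤ l ∧ r < cc q n + q ^ l

def V2B : Prop := ∀ (q d l r N : ℕ) (n : ℕ → ℕ), 4 ≤ q → 1 ≤ l → q ^ l < r → Par q d l 1 r N →
  Rows q N 0 n → n 1 ≤ q ^ l + pp q (l - 1) → tot q d 0 n < be q 0 d N →
  r < n 1 + 2 * (∑ i ∈ Ico 2 q, n i) + q ^ (l - 1) ∨
    (5 ≤ q ∧ r < n 1 + 2 * (∑ i ∈ Ico 2 q, n i) + pp q l)

def V3 : Prop := ∀ (l r N : ℕ) (n : ℕ → ℕ), Par 3 2 l 1 r N → Rows 3 N 0 n →
  tot 3 2 0 n < be 3 0 2 N → r ≤ cc 3 n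

def V4 : Prop := ∀ (q d l r c0 x0 w : ℕ) (n : ℕ → ℕ), 3 ≤ q → 2 ≤ d → d < q → 1 ≤ l →
  r ≤ q ^ l → x0 + 1 ≤ r → x0 ≤ c0 → c0 ≤ x0 + q ^ (l - 1) →
  Rows q (pp q (l + 2) + r - c0) w n →
  tot q d w n < al q 0 d (q ^ (l + 1)) + al q 1 d (r - x0) →
  (q - 1) * cc q n ≤ q * (r - x0 - 1) ∨ pp q (l + 1) + 1 ≤ n (q - 1) + (c0 - x0)

def V5 : Prop := ∀ (q d l r N w : ℕ) (n : ℕ → ℕ), 3 ≤ q → 2 ≤ d → 1 ≤ l → Par q d l 1 r N →
  r ≤ q ^ l → Rows q N w n →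
  (q - 1) * (pp q (l + 1) + 1) ≤ q * cc q n + (q - 1) * q ^ (l - 1) →
  be q 0 d N ≤ tot q d w n

/-! ### polynomial inequalities -/

/-- the inequality contradicting that all points are bad, dimension l + 3 -/
def IneqG : Prop := ∀ (q l v r : ℕ) (N p0 p1 p2 p3 : ℤ), 3 ≤ q → 1 ≤ v → v + 2 ≤ q →
  1 ≤ r → r ≤ (q - 1 - v) * q ^ l + 1 →
  p0 = pp q l → p1 = pp q (l + 1) → p2 = pp q (l + 2) → p3 = pp q (l + 3) →
  N = v * (q : ℤ) ^ (l + 1) + p1 + r →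
  0 < ((q : ℤ) - 1) * (v * N * (N - 1) - v * N * p2 * (q + v + 1) + v * (v + 1) * p3 * p2
        - (v + 1) * (p3 - N) * ((v - 1) * p1 + p0 - 1))
      - ((q : ℤ) + 1 - v) * N * (N - p2 - v)

/-- the pointwise certificate; a line has q + 1 points, t of them in X -/
def FQ : Prop := ∀ (q v t : ℕ), 3 ≤ q → 1 ≤ v → v + 2 ≤ q → t ≤ q + 1 →
  ((v : ℤ) + 1) * (q - 1) * q * ((q : ℤ) + 1 - t) * ((v - t : ℕ) : ℤ)
    - ((v : ℤ) + 1) * (q - 1) * ((q : ℤ) + 1 - t) * ((t - v - 1 : ℕ) : ℤ)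
    + (q : ℤ) * ((q : ℤ) + 1 - v) * t * (q * ((v + 1 - t : ℕ) : ℤ) - ((t - 1 - v : ℕ) : ℤ)) ≥
  (q : ℤ) * ((t : ℤ) - v - 1) *
    (v * (q - 1) * ((t : ℤ) - q - 1) - ((q : ℤ) + 1 - v) * t)

/-- dimension at least l + 4 and v at least 2 -/
def IneqC : Prop := ∀ (q l v r M : ℕ) (N P P' P2 : ℤ), 4 ≤ q → 2 ≤ v → v + 1 ≤ q → l + 4 ≤ M →
  1 ≤ r → r ≤ (q - 1 - v) * q ^ l + 1 →
  P = pp q M → P' = pp q (M - 1) → P2 = pp q (l + 2) →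
  N = v * (q : ℤ) ^ (l + 1) + pp q (l + 1) + r →
  (P2 - 1) * (P - N) < q * N * (P' - N + 1)

/-- r > q ^ l, dimension at least l + 5 -/
def IneqV5 : Prop := ∀ (q l r M : ℕ) (N P : ℤ), 3 ≤ q → l + 5 ≤ M → q ^ l < r →
  r ≤ (q - 2) * q ^ l + 1 → P = pp q M → N = pp q (l + 2) + r →
  ((q : ℤ) - 1) * N * (N - 1) < (r + 1) * (P - N)

/-- r > q ^ l, dimension l + 4, q = 3 -/
def IneqV43 : Prop := ∀ (l r : ℕ) (N P : ℤ), 3 ^ l < r → r ≤ 3 ^ l + 1 →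
  P = pp 3 (l + 4) → N = pp 3 (l + 2) + r → 2 * N * (N - 1) < 2 * r * (P - N)

/-- r > q ^ l, dimension l + 4, q ≥ 4 -/
def IneqV44 : Prop := ∀ (q l r : ℕ) (N P T : ℤ), 4 ≤ q → 1 ≤ l → q ^ l < r →
  r ≤ (q - 2) * q ^ l + 1 → P = pp q (l + 4) → N = pp q (l + 2) + r →
  2 * T * (P - N) ≤ ((q : ℤ) - 1) * N * (N - 1) - N * r →
  T + q ^ l ≤ r ∨ (T ≤ q ^ l + pp q (l - 1) ∧ (q = 4 → T + q ^ (l - 1) ≤ r) ∧
    (5 ≤ q → T + pp q l ≤ r))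

/-- r ≤ q ^ l : the loss is small -/
def IneqL : Prop := ∀ (q l r M : ℕ) (N P : ℤ), 3 ≤ q → 1 ≤ l → l + 4 ≤ M → 1 ≤ r → r ≤ q ^ l →
  P = pp q M → N = pp q (l + 2) + r →
  ((q : ℤ) - 1) * N * (N - 1) < 2 * ((q : ℤ) ^ l + 1) * (P - N)

/-- the final contradiction in the two step case -/
def IneqI : Prop := ∀ (q l r M c : ℕ) (N P P' : ℤ), 3 ≤ q → 1 ≤ l → l + 4 ≤ M → 1 ≤ r →
  r ≤ q ^ l → P = pp q M → P' = pp q (M - 1) → N = pp q (l + 2) + r →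
  2 * c * (P - N) ≤ ((q : ℤ) - 1) * N * (N - 1) → r + 1 ≤ 2 * c →
  (q - 1) * c ≤ q * (r - 1) → (q = 3 → r ≤ c) →
  q * P' * (q * r - ((q : ℤ) - 1) * c - q - 1) < ((q : ℤ) - 1) ^ 2 * (N - c) * (N - c - 1)

/-! ### linear spaces -/

/-- double counting in a linear space of size pp q M -/
def DC : Prop := ∀ (q M : ℕ) (α : Type) [Fintype α] (S : LinSp q α) (X : Finset α),
  2 ≤ q → Fintype.card α = pp q M →
  (∀ P, Rows q X.card (ind X P) (S.nn X P)) ∧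
  (∀ P i, S.nn X P i ≤ pp q (M - 1)) ∧
  (∀ P i, q ≤ i → S.nn X P i = 0) ∧
  (∑ P : α, ∑ i ∈ Ico 1 q, 2 * i * S.nn X P i = (q - 1) * (X.card * (X.card - 1)))

/-- dimension l + 3 : there is a good point -/
def N1 : Prop := ∀ (q d l v r : ℕ) (α : Type) [Fintype α] (S : LinSp q α) (X : Finset α),
  3 ≤ q → Fintype.card α = pp q (l + 3) → Par q d l v r X.card → ∃ P, S.Good d X P

/-- dimension at least l + 4, v at least 2 : there is a good point -/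
def N2 : Prop := ∀ (q d l v r M : ℕ) (α : Type) [Fintype α] (S : LinSp q α) (X : Finset α),
  3 ≤ q → l + 4 ≤ M → Fintype.card α = pp q M → 2 ≤ v → Par q d l v r X.card →
  ∃ P, S.Good d X P

/-- dimension at least l + 4, v = 1 : there is a good point or a special point -/
def N3 : Prop := ∀ (q d l r M : ℕ) (α : Type) [Fintype α] (S : LinSp q α) (X : Finset α),
  3 ≤ q → 2 ≤ d → l + 4 ≤ M → Fintype.card α = pp q M → Par q d l 1 r X.card →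
  (∃ P, S.Good d X P) ∨ (1 ≤ l ∧ r ≤ q ^ l ∧ ∃ P, P ∉ X ∧
    2 * cc q (S.nn X P) * (pp q M - X.card) ≤ (q - 1) * (X.card * (X.card - 1)) ∧
    r + 1 ≤ 2 * cc q (S.nn X P) ∧ (q - 1) * cc q (S.nn X P) ≤ q * (r - 1) ∧
    (q = 3 → r ≤ cc q (S.nn X P)))

/-! ### geometry -/

section Geo

open scoped LinearAlgebra.Projectivization

/-- the layering inequality for Hilbert functions -/
def PT : Prop := ∀ (K : Type) [Field K] [Finite K] (V : Type) [AddCommGroup V] [Module K V]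
  [Finite V] (X : Finset (ℙ K V)) (P : ℙ K V) (d : ℕ),
  (P ∉ X → ∑ i ∈ range (d + 1), hh K (V ⧸ P.submodule) (d - i) (lay P X i) ≤ hh K V d X) ∧
  (P ∈ X → 1 + ∑ i ∈ range d, hh K (V ⧸ P.submodule) (d - i) (lay P X i) ≤ hh K V d X)

/-- projective space as a linear space; layers are the nn -/
def GeoLin : Prop := ∀ (K : Type) [Field K] [Finite K] (V : Type) [AddCommGroup V] [Module K V]
  [Finite V], ∃ S : LinSp (Nat.card K) (ℙ K V), ∀ X P i, S.nn X P i = (lay P X i).card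

/-- the number of points -/
def CardP : Prop := ∀ (K : Type) [Field K] [Finite K] (V : Type) [AddCommGroup V] [Module K V]
  [Finite V], Nat.card (ℙ K V) = pp (Nat.card K) (Module.finrank K V) ∧
    (∀ P : ℙ K V, Module.finrank K (V ⧸ P.submodule) + 1 = Module.finrank K V)

/-- monotonicity and trivial values of the Hilbert function -/
def HhBasic : Prop := ∀ (K : Type) [Field K] [Finite K] (V : Type) [AddCommGroup V] [Module K V]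
  [Finite V] (d : ℕ) (X Y : Finset (ℙ K V)), X ⊆ Y → hh K V d X ≤ hh K V d Y

/-- two step lemma: many full lines through Q in the projection from P0 -/
def Cone : Prop := ∀ (K : Type) [Field K] [Finite K] (V : Type) [AddCommGroup V] [Module K V]
  [Finite V] (X : Finset (ℙ K V)) (P0 : ℙ K V) (Q : ℙ K (V ⧸ P0.submodule)),
  ∃ P1 : ℙ K V, (Nat.card K - 1) * (lay Q (lay P0 X 0) (Nat.card K - 1)).card ≤
    Nat.card K * cc (Nat.card K) (fun i => (lay P1 X i).card)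

/-- the main theorem -/
def Th : Prop := ∀ (K : Type) [Field K] [Finite K] (V : Type) [AddCommGroup V] [Module K V]
  [Finite V] (d : ℕ) (X : Finset (ℙ K V)), d < Nat.card K →
  be (Nat.card K) 0 d X.card ≤ hh K V d X

/-! ### the answer -/

/-- the number L_r for the tuple s -/
def Lval (q d : ℕ) (s : ℕ → ℕ) : ℕ :=
  pp q (s d + 1 - d) + ∑ a ∈ Ico 1 d, (if s a < a then 0 else q ^ (s a - a))

def LB1 : Prop := ∀ (q d : ℕ) (s : ℕ → ℕ), 2 ≤ q → 1 ≤ d → d < q →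
  (∀ a b, 1 ≤ a → a < b → b ≤ d → s a < s b) →
  be q 0 d (Lval q d s) ≤ ∑ a ∈ Icc 1 d, (s a).choose a ∧
    ∑ a ∈ Icc 1 d, (s a).choose a + 1 ≤ be q 0 d (Lval q d s + 1)

/-- independent forms vanishing on X -/
def LinkMv : Prop := ∀ (K : Type) [Field K] [Finite K] (m d r : ℕ)
  (F : Fin r → MvPolynomial (Fin (m + 1)) K) (X : Finset (ℙ K (Fin (m + 1) → K))),
  (∀ i, (F i).IsHomogeneous d) → LinearIndependent K F →
  (∀ x ∈ X, ∀ i, MvPolynomial.eval x.rep (F i) = 0) →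
  r + hh K (Fin (m + 1) → K) d X ≤ (m + d).choose d

/-- the extremal example; its zero set is a union of linear spaces over any extension field -/
def LowB : Prop := ∀ (K : Type) [Field K] [Finite K] (m d r : ℕ), 1 ≤ m → 1 ≤ d →
  d < Nat.card K → 1 ≤ r → r ≤ (m + d).choose d →
  ∃ F : Fin r → MvPolynomial (Fin (m + 1)) K,
    (∀ i, (F i).IsHomogeneous d) ∧ LinearIndependent K F ∧
    (m + d).choose d <
      be (Nat.card K) 0 d ({x : ℙ K (Fin (m + 1) → K) |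
        ∀ i, MvPolynomial.eval x.rep (F i) = 0}.ncard + 1) + r ∧
    (∀ (L : Type) [Field L] [Algebra K L] (x : ℙ K (Fin (m + 1) → K)),
      (∀ i, MvPolynomial.eval x.rep (F i) = 0) →
      ∃ P ∈ (Ideal.span (Set.range (fun i =>
            MvPolynomial.map (algebraMap K L) (F i)))).minimalPrimes,
        (∃ S : Set (MvPolynomial (Fin (m + 1)) L),
          (∀ f ∈ S, f.IsHomogeneous 1) ∧ P = Ideal.span S) ∧
        ∀ f ∈ P, MvPolynomial.eval (fun j => algebraMap K L (x.rep j)) f = 0)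

end Geo

end Pool.Agent.W477.ER
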